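import Mathlib

/-! Surgery: corners of nested translates. -/

set_option autoImplicit false

namespace Pool.Agent.TOR.H58

open Pointwise Set

variable {G Ω : Type*} [Group G] [MulAction G Ω]

/-- A and B are nested: one of the four corners is empty -/
def Nst (A B : Set Ω) : Prop := A ⊆ B ∨ B ⊆ A ∨ A ⊆ Bᶜ ∨ Aᶜ ⊆ B

theorem Nst.refl (A : Set Ω) : Nst A A := Or.inl Subset.rfl

theorem Nst.symm {A B : Set Ω} (h : Nst A B) : Nst B A := by
  rcases h with h | h | h | h
  · exact Or.inr (Or.inl h)
  · exact Or.inl h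
  · exact Or.inr (Or.inr (Or.inl (subset_compl_comm.mp h)))
  · exact Or.inr (Or.inr (Or.inr (compl_subset_comm.mp h)))

theorem nst_comm {A B : Set Ω} : Nst A B ↔ Nst B A := ⟨Nst.symm, Nst.symm⟩

theorem Nst.compl_right {A B : Set Ω} (h : Nst A B) : Nst A Bᶜ := by
  rcases h with h | h | h | h
  · exact Or.inr (Or.inr (Or.inl (by rw [compl_compl]; exact h)))
  · exact Or.inr (Or.inr (Or.inr (compl_subset_compl.mpr h)))
  · exact Or.inl h
  · exact Or.inr (Or.inl (compl_subset_comm.mp h))

theorem nst_compl_right {A B : Set Ω} : Nst A Bᶜ ↔ Nst A B :=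
  ⟨fun h => by have := h.compl_right; rwa [compl_compl] at this, Nst.compl_right⟩

theorem nst_compl_left {A B : Set Ω} : Nst Aᶜ B ↔ Nst A B := by
  rw [nst_comm, nst_compl_right, nst_comm]

theorem nst_smul (g : G) {A B : Set Ω} : Nst (g • A) (g • B) ↔ Nst A B := by
  unfold Nst
  rw [← smul_set_compl, ← smul_set_compl, smul_set_subset_smul_set_iff,
    smul_set_subset_smul_set_iff, smul_set_subset_smul_set_iff, smul_set_subset_smul_set_iff]

theorem nst_smul' (g : G) {A B : Set Ω} : Nst (g • A) B ↔ Nst A (g⁻¹ • B) := by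
  rw [← nst_smul g⁻¹, inv_smul_smul]

/-- A is nested with all its translates -/
def SN (G : Type*) {Ω : Type*} [Group G] [MulAction G Ω] (A : Set Ω) : Prop :=
  ∀ g : G, Nst (g • A) A

theorem SN.compl {A : Set Ω} (h : SN G A) : SN G Aᶜ := fun g => by
  rw [smul_set_compl, nst_compl_left, nst_compl_right]
  exact h g

/-- (1): everything which is nested with C is nested with the corner C n E -/
theorem corner_nst {C E B : Set Ω} (hcr : ¬ Nst C E) (hBC : Nst B C) (h1 : B ≠ C) (h2 : B ≠ Cᶜ)
    (hm : B ⊂ C → Nst B E) (hm' : Bᶜ ⊂ C → Nst Bᶜ E) : Nst B (C ∩ E) := by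
  have key : ∀ D : Set Ω, D ⊂ C → Nst D E → Nst D (C ∩ E) := by
    intro D hD hDE
    rcases hDE with h | h | h | h
    · exact Or.inl fun x hx => ⟨hD.1 hx, h hx⟩
    · exact absurd (Or.inr (Or.inl (h.trans hD.1))) hcr
    · exact Or.inr (Or.inr (Or.inl fun x hx hx' => h hx hx'.2))
    · exact absurd (Or.inr (Or.inr (Or.inr fun x hx => h fun hx' => hx (hD.1 hx')))) hcr
  rcases hBC with h | h | h | h
  · exact key B (ssubset_iff_subset_ne.mpr ⟨h, h1⟩) (hm (ssubset_iff_subset_ne.mpr ⟨h, h1⟩))
  · exact Or.inr (Or.inl fun x hx => h hx.1)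
  · exact Or.inr (Or.inr (Or.inl fun x hx hx' => h hx hx'.1))
  · have h3 : Bᶜ ⊂ C := ssubset_iff_subset_ne.mpr ⟨h, fun e => h2 (by rw [← e, compl_compl])⟩
    exact nst_compl_left.mp (key _ h3 (hm' h3))

/-- case (b) -/
theorem case_b {C E : Set Ω} (hE : SN G E) (hcr : ¬ Nst C E) (g : G)
    (h1 : (g • C)ᶜ ⊆ Eᶜ) (h2 : Cᶜ ⊆ g • E) : C ∩ E ⊆ g • (C ∩ E) := by
  have a1 : ∃ x, x ∉ C ∧ x ∈ E := by
    by_contra h
    push Not at h
    exact hcr (Or.inr (Or.inl fun x hx => by
      by_contra h3
      exact h x h3 hx))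
  have a2 : ∃ x, x ∉ C ∧ x ∉ E := by
    by_contra h
    push Not at h
    exact hcr (Or.inr (Or.inr (Or.inr fun x hx => h x hx)))
  have hEC : E ⊆ g • C := fun x hx => by
    by_contra h
    exact h1 h hx
  have hEE : E ⊆ g • E := by
    rcases hE g with h | h | h | h
    · obtain ⟨x, hx, hx'⟩ := a2
      exact absurd (h (h2 hx)) hx'
    · exact h
    · obtain ⟨x, hx, hx'⟩ := a1
      exact absurd hx' (h (h2 hx))
    · obtain ⟨x, hx, hx'⟩ := a2
      have h3 : g • x ∈ (g • C)ᶜ := fun h => hx ((smul_mem_smul_set_iff).mp h)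
      have h4 : g • x ∈ (g • E)ᶜ := fun h => hx' ((smul_mem_smul_set_iff).mp h)
      exact absurd (h h4) (h1 h3)
  rw [smul_set_inter]
  exact fun x hx => ⟨hEC hx.2, hEE hx.2⟩

/-- (2): the corner is nested with its translates -/
theorem corner_sn {C E : Set Ω} (hC : SN G C) (hE : SN G E) (hcr : ¬ Nst C E)
    (hm : ∀ g : G, g • C ⊂ C → Nst (g • C) E) (hm' : ∀ g : G, (g • C)ᶜ ⊂ C → Nst (g • C)ᶜ E)
    (hf : ∀ g : G, g ≠ 1 → g • C ≠ C ∧ g • C ≠ Cᶜ) : SN G (C ∩ E) := by
  intro g
  by_cases hg : g = 1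
  · rw [hg, one_smul]
    exact Nst.refl _
  obtain ⟨hg1, hg2⟩ := hf g hg
  have hgi : g⁻¹ ≠ 1 := fun h => hg (inv_eq_one.mp h)
  obtain ⟨hgi1, hgi2⟩ := hf g⁻¹ hgi
  have hsub : C ∩ E ⊆ C := inter_subset_left
  have hgsub : g • (C ∩ E) ⊆ g • C := smul_set_mono hsub
  rcases hC g with h | h | h | h
  · -- gC in C
    have hss : g • C ⊂ C := ssubset_iff_subset_ne.mpr ⟨h, hg1⟩
    rcases hm g hss with k | k | k | k
    · exact Or.inl fun x hx => ⟨h (hgsub hx), k (hgsub hx)⟩
    · exact absurd (Or.inr (Or.inl (k.trans h))) hcr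
    · exact Or.inr (Or.inr (Or.inl fun x hx hx' => k (hgsub hx) hx'.2))
    · exact absurd (Or.inr (Or.inr (Or.inr fun x hx => k fun hx' => hx (h hx')))) hcr
  · -- C in gC
    have h' : g⁻¹ • C ⊆ C := by
      rw [smul_set_subset_iff_subset_inv_smul_set, inv_inv]
      exact h
    have hss : g⁻¹ • C ⊂ C := ssubset_iff_subset_ne.mpr ⟨h', hgi1⟩
    rcases hm g⁻¹ hss with k | k | k | k
    · have k' : C ⊆ g • E := by
        rw [smul_set_subset_iff_subset_inv_smul_set, inv_inv] at k
        exact k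
      refine Or.inr (Or.inl ?_)
      rw [smul_set_inter]
      exact fun x hx => ⟨h hx.1, k' hx.1⟩
    · exact absurd (Or.inr (Or.inl (k.trans h'))) hcr
    · have k' : C ⊆ g • Eᶜ := by
        rw [smul_set_subset_iff_subset_inv_smul_set, inv_inv] at k
        exact k
      refine Or.inr (Or.inr (Or.inl ?_))
      rw [smul_set_inter]
      intro x hx hx'
      have h5 := k' hx'.1
      rw [smul_set_compl] at h5
      exact h5 hx.2
    · exact absurd (Or.inr (Or.inr (Or.inr fun x hx => k fun hx' => hx (h' hx')))) hcr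
  · exact Or.inr (Or.inr (Or.inl fun x hx hx' => h (hgsub hx) hx'.1))
  · -- gC u C everything
    have a1 : ∃ x, x ∉ C ∧ x ∈ E := by
      by_contra h
      push Not at h
      exact hcr (Or.inr (Or.inl fun x hx => by
        by_contra h3
        exact h x h3 hx))
    have a2 : ∃ x, x ∉ C ∧ x ∉ E := by
      by_contra h
      push Not at h
      exact hcr (Or.inr (Or.inr (Or.inr fun x hx => h x hx)))
    have hcs : (g • C)ᶜ ⊂ C := ssubset_iff_subset_ne.mpr
      ⟨h, fun e => hg2 (by have := congrArg compl e; rwa [compl_compl] at this)⟩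
    have h' : (g⁻¹ • C)ᶜ ⊆ C := by
      rw [← smul_set_compl, smul_set_subset_iff_subset_inv_smul_set, inv_inv]
      exact compl_subset_comm.mp h
    have hcs' : (g⁻¹ • C)ᶜ ⊂ C := ssubset_iff_subset_ne.mpr
      ⟨h', fun e => hgi2 (by have := congrArg compl e; rwa [compl_compl] at this)⟩
    have hx1 : (g • C)ᶜ ⊆ E ∨ (g • C)ᶜ ⊆ Eᶜ := by
      rcases hm' g hcs with k | k | k | k
      · exact Or.inl k
      · exact absurd (Or.inr (Or.inl (k.trans h))) hcr
      · exact Or.inr k
      · exact absurd (Or.inr (Or.inr (Or.inr fun x hx => k fun hx' => hx (h hx')))) hcr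
    have hx2 : Cᶜ ⊆ g • E ∨ Cᶜ ⊆ g • Eᶜ := by
      rcases hm' g⁻¹ hcs' with k | k | k | k
      · left
        rw [← smul_set_compl, smul_set_subset_iff_subset_inv_smul_set, inv_inv] at k
        exact k
      · exact absurd (Or.inr (Or.inl (k.trans h'))) hcr
      · right
        rw [← smul_set_compl, smul_set_subset_iff_subset_inv_smul_set, inv_inv] at k
        exact k
      · exact absurd (Or.inr (Or.inr (Or.inr fun x hx => k fun hx' => hx (h' hx')))) hcr
    obtain ⟨u, hu, hu'⟩ := a1
    obtain ⟨v, hv, hv'⟩ := a2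
    have gu1 : g • u ∈ (g • C)ᶜ := fun h => hu (smul_mem_smul_set_iff.mp h)
    have gu2 : g • u ∈ g • E := smul_mem_smul_set hu'
    have gv1 : g • v ∈ (g • C)ᶜ := fun h => hv (smul_mem_smul_set_iff.mp h)
    have gv2 : g • v ∉ g • E := fun h => hv' (smul_mem_smul_set_iff.mp h)
    rcases hx1 with hx1 | hx1
    · rcases hx2 with hx2 | hx2
      · -- (a)
        have hEE : (g • E)ᶜ ⊆ E := by
          rcases hE g with k | k | k | k
          · exact absurd (k (hx2 hv)) hv'
          · exact absurd (k (hx1 gv1)) gv2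
          · exact absurd hu' (k (hx2 hu))
          · exact k
        refine Or.inr (Or.inr (Or.inr ?_))
        rw [smul_set_inter]
        intro x hx
        by_cases hxC : x ∈ g • C
        · have hxE : x ∉ g • E := fun h5 => hx ⟨hxC, h5⟩
          refine ⟨?_, hEE hxE⟩
          by_contra h6
          exact hxE (hx2 h6)
        · exact ⟨h hxC, hx1 hxC⟩
      · -- (c)
        have hx1' : Cᶜ ⊆ g⁻¹ • E := by
          have : (g • C)ᶜ ⊆ E := hx1
          rw [← smul_set_compl, smul_set_subset_iff_subset_inv_smul_set] at this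
          exact this
        have hx2' : (g⁻¹ • C)ᶜ ⊆ Eᶜ := by
          rw [← smul_set_compl, smul_set_subset_iff_subset_inv_smul_set, inv_inv]
          exact hx2
        have := case_b hE hcr g⁻¹ hx2' hx1'
        refine Or.inl ?_
        rw [smul_set_subset_iff_subset_inv_smul_set]
        exact this
    · rcases hx2 with hx2 | hx2
      · -- (b)
        exact Or.inr (Or.inl (case_b hE hcr g hx1 hx2))
      · -- (d)
        have hEE : g • E ⊆ Eᶜ := by
          rcases hE g with k | k | k | k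
          · exact absurd (k gu2) (hx1 gu1)
          · have := hx2 hu
            rw [smul_set_compl] at this
            exact absurd (k hu') this
          · exact k
          · have := hx2 hv
            rw [smul_set_compl] at this
            exact absurd (k this) hv'
        refine Or.inr (Or.inr (Or.inl ?_))
        rw [smul_set_inter]
        exact fun x hx hx' => hEE hx.2 hx'.2

/-- (3): if a translate of C is nested with E, so is the translate of the corner -/
theorem corner_cross {C E : Set Ω} (hE : SN G E) (hcr : ¬ Nst C E) (g : G)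
    (h : Nst (g • C) E) : Nst (g • (C ∩ E)) E := by
  rw [smul_set_inter]
  rcases h with h | h | h | h
  · exact Or.inl fun x hx => h hx.1
  · -- E in gC
    rcases hE g with k | k | k | k
    · exact Or.inl fun x hx => k hx.2
    · exact Or.inr (Or.inl fun x hx => ⟨h hx, k hx⟩)
    · exact Or.inr (Or.inr (Or.inl fun x hx hx' => k hx.2 hx'))
    · exfalso
      have h1 : (g • E)ᶜ ⊆ g • C := k.trans h
      rw [← smul_set_compl, smul_set_subset_smul_set_iff] at h1
      exact hcr (Or.inr (Or.inr (Or.inr (compl_subset_comm.mp h1))))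
  · exact Or.inr (Or.inr (Or.inl fun x hx => h hx.1))
  · -- gC u E everything
    rcases hE g with k | k | k | k
    · exact Or.inl fun x hx => k hx.2
    · exfalso
      have h1 : (g • C)ᶜ ⊆ g • E := h.trans k
      rw [← smul_set_compl, smul_set_subset_smul_set_iff] at h1
      exact hcr (Or.inr (Or.inr (Or.inr h1)))
    · exact Or.inr (Or.inr (Or.inl fun x hx => k hx.2))
    · refine Or.inr (Or.inr (Or.inr fun x hx => ?_))
      by_contra hxE
      refine hx ⟨?_, ?_⟩
      · by_contra h2
        exact hxE (h h2)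
      · by_contra h2
        exact hxE (k h2)

end Pool.Agent.TOR.H58
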