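import Pool.Agent.Helper58_TOR.Flow
import Pool.Agent.Helper58_TOR.Surg

/-! FLOW THEOREM for half-spaces: all systems of good nested half-spaces form an acyclic
complex. -/

set_option autoImplicit false

namespace Pool.Agent.TOR.H58

open Pointwise Set

variable {G Ω V : Type*} [Group G] [MulAction G Ω]

/-- v and w are nested: all translates of the half-spaces are nested -/
def Rel (G : Type*) {Ω V : Type*} [Group G] [MulAction G Ω] (hs : V → Set Ω) (v w : V) : Prop :=
  ∀ g : G, Nst (g • hs v) (hs w)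

/-- the flag complex of the nesting relation -/
def KF (G : Type*) {Ω V : Type*} [Group G] [MulAction G Ω] (hs : V → Set Ω) (s : Set V) : Prop :=
  ∀ v ∈ s, ∀ w ∈ s, Rel G hs v w

theorem Rel.symm {hs : V → Set Ω} {v w : V} (h : Rel G hs v w) : Rel G hs w v := fun g => by
  rw [nst_smul', nst_comm]
  exact h g⁻¹

theorem SN.smul {A : Set Ω} (h : SN G A) (g0 : G) : SN G (g0 • A) := fun g => by
  rw [← nst_smul g0⁻¹, smul_smul, smul_smul, smul_smul, inv_mul_cancel, one_smul]
  exact h _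

/-- the crossing set -/
def Cr (G : Type*) {Ω : Type*} [Group G] [MulAction G Ω] (E A : Set Ω) : Set G :=
  {g | ¬ Nst (g • A) E}

theorem Cr_smul (E A : Set Ω) (g1 : G) : Cr G E (g1 • A) = (fun g => g * g1⁻¹) '' Cr G E A := by
  ext g
  constructor
  · intro h
    refine ⟨g * g1, ?_, by simp⟩
    intro h2
    exact h (by rw [smul_smul]; exact h2)
  · rintro ⟨x, hx, rfl⟩ h2
    refine hx ?_
    rw [smul_smul, inv_mul_cancel_right] at h2
    exact h2

theorem Cr_compl (E A : Set Ω) : Cr G E Aᶜ = Cr G E A := by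
  ext g
  unfold Cr
  change ¬ Nst (g • Aᶜ) E ↔ ¬ Nst (g • A) E
  rw [smul_set_compl, nst_compl_left]

theorem ncard_smul (E A : Set Ω) (g1 : G) : (Cr G E (g1 • A)).ncard = (Cr G E A).ncard := by
  rw [Cr_smul]
  exact Set.ncard_image_of_injective _ (mul_left_injective g1⁻¹)

theorem KF_mono {hs : V → Set Ω} {s t : Set V} (h : s ⊆ t) (ht : KF G hs t) : KF G hs s :=
  fun v hv w hw => ht v (h hv) w (h hw)

/-- a set nested with two crossing sets is nested with their intersection -/
theorem nst_corner {C E B : Set Ω} (hcr : ¬ Nst C E) (hC : Nst B C) (hE : Nst B E) :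
    Nst B (C ∩ E) := by
  rcases hC with h | h | h | h
  · rcases hE with k | k | k | k
    · exact Or.inl fun x hx => ⟨h hx, k hx⟩
    · exact Or.inr (Or.inl fun x hx => k hx.2)
    · exact Or.inr (Or.inr (Or.inl fun x hx hx' => k hx hx'.2))
    · exact absurd (Or.inr (Or.inr (Or.inr fun x hx => k fun hx' => hx (h hx')))) hcr
  · exact Or.inr (Or.inl fun x hx => h hx.1)
  · exact Or.inr (Or.inr (Or.inl fun x hx hx' => h hx hx'.1))
  · rcases hE with k | k | k | k
    · refine absurd (Or.inr (Or.inr (Or.inr fun x hx => ?_))) hcr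
      by_contra hxE
      exact hx (h fun hxB => hxE (k hxB))
    · exact Or.inr (Or.inl fun x hx => k hx.2)
    · exact Or.inr (Or.inr (Or.inl fun x hx hx' => k hx hx'.2))
    · exact Or.inr (Or.inr (Or.inr fun x hx => ⟨h hx, k hx⟩))

/-- Flow theorem. P is the openness condition, Q a closed condition such as being nested with a
fixed system; P is only used for sets with Q. -/
theorem flow_relQ {M : Type*} [AddCommGroup M] (hs : V → Set Ω) (P Q : Set Ω → Prop)
    (hP : ∀ A B : Set Ω, Q A → Q B → Disjoint A B → P (A ∪ B) → P A ∨ P B)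
    (hPf : ∀ A, Q A → P A → ∀ g : G, g ≠ 1 → g • A ≠ A ∧ g • A ≠ Aᶜ)
    (hPg : ∀ A (g : G), Q A → P A → P (g • A)) (hPc : ∀ A, Q A → P A → P Aᶜ)
    (hQ : ∀ C E, ¬ Nst C E → Q C → Q E → Q (C ∩ E))
    (hQg : ∀ A (g : G), Q A → Q (g • A)) (hQc : ∀ A, Q A → Q Aᶜ) (hsQ : ∀ v, Q (hs v))
    (e : V) (hfin : ∀ v, (Cr G (hs e) (hs v)).Finite) (hsP : ∀ v, P (hs v))
    (hsN : ∀ v, SN G (hs v))
    (hsur : ∀ A, P A → Q A → SN G A → (Cr G (hs e) A).Finite →
      ∃ v, ∃ g : G, hs v = g • A ∨ hs v = (g • A)ᶜ) :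
    Acyc M (KF G hs) := by
  classical
  set E := hs e with hE
  refine flow (fun s t h ht => KF_mono h ht) (fun v => (Cr G E (hs v)).ncard) e ?_ ?_
  · intro s hs1 hs2
    have hve : ∀ v ∈ s, Rel G hs v e := by
      intro v hv g
      have h0 := hs2 v hv
      rw [Set.ncard_eq_zero (hfin v)] at h0
      by_contra h
      have : g ∈ Cr G E (hs v) := h
      rw [h0] at this
      exact this
    intro v hv w hw
    rcases Set.mem_insert_iff.mp hv with hv' | hv'
    · rcases Set.mem_insert_iff.mp hw with hw' | hw'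
      · rw [hv', hw']; exact hsN _
      · rw [hv']; exact (hve w hw').symm
    · rcases Set.mem_insert_iff.mp hw with hw' | hw'
      · rw [hw']; exact hve v hv'
      · exact hs1 v hv' w hw'
  · intro L hL hex
    obtain ⟨v0, hv0, hpos0⟩ := hex
    -- all translates of the elements of L and their complements
    let LL : Set (Set Ω) := {B | ∃ v ∈ L, ∃ g : G, B = g • hs v ∨ B = (g • hs v)ᶜ}
    have hLLc : ∀ B ∈ LL, Bᶜ ∈ LL := by
      rintro B ⟨v, hv, g, rfl | rfl⟩
      · exact ⟨v, hv, g, Or.inr rfl⟩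
      · exact ⟨v, hv, g, Or.inl (compl_compl _)⟩
    have hLLg : ∀ B ∈ LL, ∀ h : G, h • B ∈ LL := by
      rintro B ⟨v, hv, g, rfl | rfl⟩ h
      · exact ⟨v, hv, h * g, Or.inl (by rw [smul_smul])⟩
      · exact ⟨v, hv, h * g, Or.inr (by rw [smul_set_compl, smul_smul])⟩
    let CC : Set (Set Ω) := {B | B ∈ LL ∧ ¬ Nst B E}
    have hCCfin : CC.Finite := by
      have h1 : CC ⊆ ⋃ v ∈ L, ((fun g : G => g • hs v) '' Cr G E (hs v) ∪
          (fun g : G => (g • hs v)ᶜ) '' Cr G E (hs v)) := by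
        rintro B ⟨⟨v, hv, g, rfl | rfl⟩, hB⟩
        · exact Set.mem_biUnion hv (Or.inl ⟨g, hB, rfl⟩)
        · exact Set.mem_biUnion hv (Or.inr ⟨g, fun h => hB (nst_compl_left.mpr h), rfl⟩)
      refine Set.Finite.subset (Set.Finite.biUnion L.finite_toSet fun v _ => ?_) h1
      exact ((hfin v).image _).union ((hfin v).image _)
    have hCCne : CC.Nonempty := by
      have h1 : (Cr G E (hs v0)).Nonempty := by
        rw [Set.nonempty_iff_ne_empty]
        intro h
        rw [h, Set.ncard_empty] at hpos0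
        exact lt_irrefl _ hpos0
      obtain ⟨g, hg⟩ := h1
      exact ⟨g • hs v0, ⟨v0, hv0, g, Or.inl rfl⟩, hg⟩
    obtain ⟨C, hC⟩ := hCCfin.exists_minimal hCCne
    obtain ⟨⟨hCL, hcr⟩, hCmin⟩ := hC
    have hmin : ∀ B ∈ LL, B ⊂ C → Nst B E := by
      intro B hB hBC
      by_contra h
      exact hBC.2 (hCmin ⟨hB, h⟩ hBC.1)
    obtain ⟨v, hv, g0, hg0⟩ := hCL
    have hCL : C ∈ LL := ⟨v, hv, g0, hg0⟩
    have hCP : P C := by
      rcases hg0 with h | h
      · rw [h]; exact hPg _ _ (hsQ v) (hsP v)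
      · rw [h]; exact hPc _ (hQg _ _ (hsQ v)) (hPg _ _ (hsQ v) (hsP v))
    have hCQ : Q C := by
      rcases hg0 with h | h
      · rw [h]; exact hQg _ _ (hsQ v)
      · rw [h]; exact hQc _ (hQg _ _ (hsQ v))
    have hCsn : SN G C := by
      rcases hg0 with h | h
      · rw [h]; exact (hsN v).smul g0
      · rw [h]; exact ((hsN v).smul g0).compl
    have hCrel : ∀ w, Rel G hs v w → ∀ g : G, Nst (g • hs w) C := by
      intro w hw g
      have h1 : Nst (g • hs w) (g0 • hs v) := by
        have h2 := hw.symm (g0⁻¹ * g)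
        rw [← nst_smul g0, smul_smul, mul_inv_cancel_left] at h2
        exact h2
      rcases hg0 with h | h
      · rw [h]; exact h1
      · rw [h]; exact h1.compl_right
    have hcrC : (Cr G E C).ncard = (Cr G E (hs v)).ncard := by
      rcases hg0 with h | h
      · rw [h, ncard_smul]
      · rw [h, Cr_compl, ncard_smul]
    have hfinC : (Cr G E C).Finite := by
      rcases hg0 with h | h
      · rw [h, Cr_smul]; exact (hfin v).image _
      · rw [h, Cr_compl, Cr_smul]; exact (hfin v).image _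
    have key : ∀ E' : Set Ω, SN G E' → (∀ X, Nst X E' ↔ Nst X E) → Q E' → P (C ∩ E') →
        ∃ v ∈ L, ∃ v', (Cr G E (hs v')).ncard < (Cr G E (hs v)).ncard ∧
          ∀ s : Set V, (∀ a ∈ s, a ∈ L) → v ∈ s → KF G hs s → KF G hs (insert v' s) := by
      intro E' hE'N hE' hQE' hPC
      have hcr' : ¬ Nst C E' := fun h => hcr ((hE' C).mp h)
      have hsn : SN G (C ∩ E') := by
        refine corner_sn hCsn hE'N hcr' (fun g hg => (hE' _).mpr (hmin _ (hLLg C hCL g) hg))
          (fun g hg => (hE' _).mpr (hmin _ (hLLc _ (hLLg C hCL g)) hg)) (hPf C hCQ hCP)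
      have hsub : Cr G E (C ∩ E') ⊆ Cr G E C := by
        intro g hg h
        exact hg ((hE' _).mp (corner_cross hE'N hcr' g ((hE' _).mpr h)))
      have hfin' : (Cr G E (C ∩ E')).Finite := hfinC.subset hsub
      have hone : (1 : G) ∉ Cr G E (C ∩ E') := by
        intro h
        refine h ?_
        rw [one_smul, ← hE']
        exact Or.inl inter_subset_right
      have hone' : (1 : G) ∈ Cr G E C := by
        intro h
        rw [one_smul] at h
        exact hcr h
      have hlt : (Cr G E (C ∩ E')).ncard < (Cr G E C).ncard :=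
        Set.ncard_lt_ncard (ssubset_iff_of_subset hsub |>.mpr ⟨1, hone', hone⟩) hfinC
      obtain ⟨v', g1, hv'⟩ := hsur _ hPC (hQ _ _ hcr' hCQ hQE') hsn hfin'
      have hcv : (Cr G E (hs v')).ncard = (Cr G E (C ∩ E')).ncard := by
        rcases hv' with h | h
        · rw [h, ncard_smul]
        · rw [h, Cr_compl, ncard_smul]
      have hrel : ∀ w, (∀ g : G, Nst (g • hs w) (C ∩ E')) → Rel G hs v' w := by
        intro w hw g
        have h1 : Nst (g • g1 • (C ∩ E')) (hs w) := by
          rw [smul_smul, nst_smul', nst_comm]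
          exact hw _
        rcases hv' with h | h
        · rw [h]; exact h1
        · rw [h, smul_set_compl, nst_compl_left]; exact h1
      have hself : Rel G hs v' v' := by
        refine hrel v' fun g => ?_
        rcases hv' with h | h
        · rw [h, smul_smul]; exact hsn _
        · rw [h, smul_set_compl, nst_compl_left, smul_smul]; exact hsn _
      refine ⟨v, hv, v', by rw [hcv, ← hcrC]; exact hlt, fun s hsL hvs hKs => ?_⟩
      have hw' : ∀ w ∈ s, Rel G hs v' w := by
        intro w hws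
        refine hrel w fun g => ?_
        have hB : g • hs w ∈ LL := ⟨w, hsL w hws, g, Or.inl rfl⟩
        by_cases h1 : g • hs w = C
        · rw [h1]; exact Or.inr (Or.inl inter_subset_left)
        by_cases h2 : g • hs w = Cᶜ
        · rw [h2, nst_compl_left]; exact Or.inr (Or.inl inter_subset_left)
        exact corner_nst hcr' (hCrel w (hKs v hvs w hws) g) h1 h2
          (fun h => (hE' _).mpr (hmin _ hB h)) (fun h => (hE' _).mpr (hmin _ (hLLc _ hB) h))
      intro a ha b hb
      rcases Set.mem_insert_iff.mp ha with ha' | ha'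
      · rcases Set.mem_insert_iff.mp hb with hb' | hb'
        · rw [ha', hb']; exact hself
        · rw [ha']; exact hw' b hb'
      · rcases Set.mem_insert_iff.mp hb with hb' | hb'
        · rw [hb']; exact (hw' a ha').symm
        · exact hKs a ha' b hb'
    have hsplit : C = (C ∩ E) ∪ (C ∩ Eᶜ) := by rw [← Set.inter_union_distrib_left]; simp
    have hdisj : Disjoint (C ∩ E) (C ∩ Eᶜ) := by
      rw [Set.disjoint_left]
      exact fun x hx hx' => hx'.2 hx.2
    rcases hP _ _ (hQ C E hcr hCQ (hsQ e))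
      (hQ C Eᶜ (fun h => hcr (nst_compl_right.mp h)) hCQ (hQc _ (hsQ e))) hdisj
      (hsplit ▸ hCP) with h | h
    · exact key E (hsN e) (fun X => Iff.rfl) (hsQ e) h
    · exact key Eᶜ (hsN e).compl (fun X => nst_compl_right) (hQc _ (hsQ e)) h

/-- Flow theorem. P is the openness condition, Q a closed condition such as being nested with a
fixed system. -/
theorem flow_rel {M : Type*} [AddCommGroup M] (hs : V → Set Ω) (P Q : Set Ω → Prop)
    (hP : ∀ A B : Set Ω, Disjoint A B → P (A ∪ B) → P A ∨ P B)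
    (hPf : ∀ A, P A → ∀ g : G, g ≠ 1 → g • A ≠ A ∧ g • A ≠ Aᶜ)
    (hPg : ∀ A (g : G), P A → P (g • A)) (hPc : ∀ A, P A → P Aᶜ)
    (hQ : ∀ C E, ¬ Nst C E → Q C → Q E → Q (C ∩ E))
    (hQg : ∀ A (g : G), Q A → Q (g • A)) (hQc : ∀ A, Q A → Q Aᶜ) (hsQ : ∀ v, Q (hs v))
    (e : V) (hfin : ∀ v, (Cr G (hs e) (hs v)).Finite) (hsP : ∀ v, P (hs v))
    (hsN : ∀ v, SN G (hs v))
    (hsur : ∀ A, P A → Q A → SN G A → (Cr G (hs e) A).Finite →
      ∃ v, ∃ g : G, hs v = g • A ∨ hs v = (g • A)ᶜ) :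
    Acyc M (KF G hs) :=
  flow_relQ hs P Q (fun A B _ _ => hP A B) (fun A _ => hPf A) (fun A g _ => hPg A g)
    (fun A _ => hPc A) hQ hQg hQc hsQ e hfin hsP hsN hsur

/-- Flow theorem without closed condition -/
theorem flow_main {M : Type*} [AddCommGroup M] (hs : V → Set Ω) (P : Set Ω → Prop)
    (hP : ∀ A B : Set Ω, Disjoint A B → P (A ∪ B) → P A ∨ P B)
    (hPf : ∀ A, P A → ∀ g : G, g ≠ 1 → g • A ≠ A ∧ g • A ≠ Aᶜ)
    (hPg : ∀ A (g : G), P A → P (g • A)) (hPc : ∀ A, P A → P Aᶜ)
    (e : V) (hfin : ∀ v, (Cr G (hs e) (hs v)).Finite) (hsP : ∀ v, P (hs v))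
    (hsN : ∀ v, SN G (hs v))
    (hsur : ∀ A, P A → SN G A → (Cr G (hs e) A).Finite →
      ∃ v, ∃ g : G, hs v = g • A ∨ hs v = (g • A)ᶜ) :
    Acyc M (KF G hs) :=
  flow_rel hs P (fun _ => True) hP hPf hPg hPc (fun _ _ _ _ _ => trivial)
    (fun _ _ _ => trivial) (fun _ _ => trivial) (fun _ => trivial) e hfin hsP hsN
    (fun A h1 _ h2 h3 => hsur A h1 h2 h3)

/-- the closed condition: nested with all elements of a G-invariant family -/
theorem closed_nst (β : Set (Set Ω)) (hβ : ∀ B ∈ β, ∀ g : G, g • B ∈ β) :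
    (∀ C E : Set Ω, ¬ Nst C E → (∀ B ∈ β, Nst B C) → (∀ B ∈ β, Nst B E) →
      ∀ B ∈ β, Nst B (C ∩ E)) ∧
    (∀ (A : Set Ω) (g : G), (∀ B ∈ β, Nst B A) → ∀ B ∈ β, Nst B (g • A)) ∧
    (∀ A : Set Ω, (∀ B ∈ β, Nst B A) → ∀ B ∈ β, Nst B Aᶜ) := by
  refine ⟨fun C E hcr hC hE B hB => nst_corner hcr (hC B hB) (hE B hB), fun A g hA B hB => ?_,
    fun A hA B hB => (hA B hB).compl_right⟩
  rw [nst_comm, nst_smul', nst_comm]
  exact hA _ (hβ B hB _)

end Pool.Agent.TOR.H58
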