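import Pool.Agent.Helper58_TOR.Flow
import Pool.Agent.Helper41_TOR.Ho

/-! From list chains to ordered tuples (the form used in `van_of_action`). -/

set_option autoImplicit false

namespace Pool.Agent.TOR.H58

open Finsupp

universe u

/-- ordered p-simplices of the complex K -/
def OX {V : Type u} (K : Set V → Prop) (p : ℕ) : Type u := {f : Fin (p + 1) → V // K (Set.range f)}

/-- faces -/
def ofc {V : Type u} {K : Set V → Prop} (hK : ∀ s t, s ⊆ t → K t → K s) (p : ℕ)
    (i : Fin (p + 2)) (f : OX K (p + 1)) : OX K p :=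
  ⟨fun j => f.1 (i.succAbove j), hK _ _ (by rintro x ⟨j, rfl⟩; exact ⟨_, rfl⟩) f.2⟩

variable {V : Type u} {M : Type u} [AddCommGroup M] {K : Set V → Prop}

theorem bd1_ofFn : ∀ (n : ℕ) (f : Fin (n + 1) → V) (m : M),
    bd1 (List.ofFn f) m =
      ∑ i : Fin (n + 1), (-1 : ℤ) ^ (i : ℕ) • single (List.ofFn fun j => f (i.succAbove j)) m := by
  intro n
  induction n with
  | zero =>
    intro f m
    rw [List.ofFn_succ, List.ofFn_zero, bd1_cons, bd1_nil, map_zero, sub_zero]
    simp
  | succ n ih =>
    intro f m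
    rw [List.ofFn_succ, bd1_cons, ih, Fin.sum_univ_succ (n := n + 1), map_sum]
    have h0 : (List.ofFn fun j => f ((0 : Fin (n + 2)).succAbove j)) =
        List.ofFn fun i : Fin (n + 1) => f i.succ := by
      congr 1
    rw [h0]
    simp only [Fin.val_zero, pow_zero, one_smul]
    rw [sub_eq_add_neg, ← Finset.sum_neg_distrib]
    congr 1
    refine Finset.sum_congr rfl fun i _ => ?_
    have h1 : (List.ofFn fun j => f (i.succ.succAbove j)) =
        f 0 :: List.ofFn fun j => f (i.succAbove j).succ := by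
      rw [List.ofFn_succ]
      congr 2
      funext j
      rw [Fin.succ_succAbove_succ]
    rw [h1, map_zsmul, cns_single, Fin.val_succ, pow_succ]
    simp

/-- tuples to lists -/
noncomputable def tau (K : Set V → Prop) (M : Type u) [AddCommGroup M] (p : ℕ) :
    (OX K p →₀ M) →+ (List V →₀ M) :=
  Finsupp.mapDomain.addMonoidHom fun f => List.ofFn f.1

theorem tau_single (p : ℕ) (f : OX K p) (m : M) :
    tau K M p (single f m) = single (List.ofFn f.1) m := by
  simp [tau, Finsupp.mapDomain.addMonoidHom, Finsupp.mapDomain_single]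

theorem ofn_inj (p : ℕ) : Function.Injective fun f : OX K p => List.ofFn f.1 := by
  intro f g h
  exact Subtype.ext (List.ofFn_injective h)

theorem tau_inj (p : ℕ) : Function.Injective (tau K M p) :=
  Finsupp.mapDomain_injective (ofn_inj p)

theorem set_ofFn {n : ℕ} (f : Fin n → V) : {a | a ∈ List.ofFn f} = Set.range f := by
  ext x
  exact List.mem_ofFn

theorem tau_mem (p : ℕ) (c : OX K p →₀ M) :
    tau K M p c ∈ Sup M (fun l => KL K l ∧ l.length = p + 1) := by
  rw [← Finsupp.sum_single c, Finsupp.sum, map_sum]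
  refine AddSubgroup.sum_mem _ fun f _ => ?_
  rw [tau_single]
  refine single_mem_Sup ⟨?_, by simp⟩ _
  change K {a | a ∈ List.ofFn f.1}
  rw [set_ofFn]
  exact f.2

theorem bd_tau (hK : ∀ s t, s ⊆ t → K t → K s) (p : ℕ) (c : OX K (p + 1) →₀ M) :
    bd (tau K M (p + 1) c) = tau K M p (bdM (OX K) (ofc hK) M p c) := by
  induction c using Finsupp.induction_linear with
  | zero => simp
  | add f g hf hg => simp only [map_add, hf, hg]
  | single f m =>
    rw [tau_single, bd_single, bd1_ofFn]
    unfold bdM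
    rw [AddMonoidHom.finsetSum_apply, map_sum]
    refine Finset.sum_congr rfl fun i _ => ?_
    rw [AddMonoidHom.zsmul_apply, map_zsmul]
    congr 1
    change _ = tau K M p (Finsupp.mapDomain (ofc hK p i) (single f m))
    rw [Finsupp.mapDomain_single, tau_single]
    rfl

theorem bd_tau0 (c : OX K 0 →₀ M) :
    bd (tau K M 0 c) = single [] (auM (OX K 0) M c) := by
  induction c using Finsupp.induction_linear with
  | zero => simp
  | add f g hf hg => simp only [map_add, hf, hg, Finsupp.single_add]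
  | single f m =>
    rw [tau_single, bd_single, bd1_ofFn]
    simp [auM]

/-- homogeneous part -/
noncomputable def hom (V M : Type*) [AddCommGroup M] (n : ℕ) : (List V →₀ M) →+ (List V →₀ M) :=
  Finsupp.filterAddHom fun l => l.length = n

theorem hom_of_mem {n : ℕ} {c : List V →₀ M} (h : c ∈ Sup M fun l => l.length = n) :
    hom V M n c = c := by
  change Finsupp.filter (fun l => l.length = n) c = c
  rw [Finsupp.filter_eq_self_iff]
  exact h

theorem hom_of_ne {n k : ℕ} (hk : k ≠ n) {c : List V →₀ M}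
    (h : c ∈ Sup M fun l => l.length = k) : hom V M n c = 0 := by
  change Finsupp.filter (fun l => l.length = n) c = 0
  rw [Finsupp.filter_eq_zero_iff]
  intro l hl
  by_contra hne
  exact hk ((h l hne).symm.trans hl)

theorem bd_hom (n : ℕ) (c : List V →₀ M) : bd (hom V M (n + 1) c) = hom V M n (bd c) := by
  induction c using Finsupp.induction_linear with
  | zero => simp
  | add f g hf hg => simp only [map_add, hf, hg]
  | single l m =>
    have h1 : bd1 l m ∈ Sup M fun l' => l'.length + 1 = l.length :=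
      Sup_mono (fun l' h => h.2) (bd1_mem l m)
    by_cases hl : l.length = n + 1
    · rw [hom_of_mem (single_mem_Sup hl m), bd_single, hom_of_mem]
      exact Sup_mono (fun l' h => by omega) h1
    · have h2 : single l m ∈ Sup M fun l' => l'.length = l.length :=
        single_mem_Sup (Q := fun l' => l'.length = l.length) rfl m
      rw [hom_of_ne hl h2, map_zero, bd_single]
      cases l with
      | nil => rw [bd1_nil, map_zero]
      | cons v l =>
        rw [hom_of_ne (k := l.length) (fun h => hl (by simp [h]))]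
        exact Sup_mono (fun l' h => by simpa using h) h1

theorem lift_tau (p : ℕ) (b : List V →₀ M) (hb : b ∈ Sup M fun l => KL K l ∧ l.length = p + 1) :
    ∃ b' : OX K p →₀ M, tau K M p b' = b := by
  refine ⟨Finsupp.comapDomain _ b (ofn_inj p).injOn, ?_⟩
  refine Finsupp.mapDomain_comapDomain _ (ofn_inj p) b ?_
  intro l hl
  obtain ⟨h1, h2⟩ := hb l (Finsupp.mem_support_iff.mp hl)
  obtain ⟨f, rfl⟩ : ∃ f : Fin (p + 1) → V, List.ofFn f = l := by
    refine ⟨fun i => l.get (Fin.cast h2.symm i), ?_⟩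
    refine List.ext_get (by simp only [List.length_ofFn, h2]) ?_
    intro n h1 h2
    rw [List.get_ofFn]
    rfl
  refine ⟨⟨f, ?_⟩, rfl⟩
  rw [← set_ofFn]
  exact h1

theorem exact0_of_acyc (hK : ∀ s t, s ⊆ t → K t → K s) (ha : Acyc M K) (c : OX K 0 →₀ M)
    (hc : auM (OX K 0) M c = 0) : ∃ b, bdM (OX K) (ofc hK) M 0 b = c := by
  have h1 : tau K M 0 c ∈ Sup M (KL K) := Sup_mono (fun l h => h.1) (tau_mem 0 c)
  obtain ⟨b, hb, hbc⟩ := ha _ h1 (by rw [bd_tau0, hc, Finsupp.single_zero])
  have h2 : hom V M 2 b ∈ Sup M fun l => KL K l ∧ l.length = 2 := by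
    intro l hl
    have : Finsupp.filter (fun l => l.length = 2) b l ≠ 0 := hl
    rw [Finsupp.filter_apply] at this
    split_ifs at this with h
    · exact ⟨hb l this, h⟩
    · exact absurd rfl this
  obtain ⟨b', hb'⟩ := lift_tau 1 _ h2
  refine ⟨b', tau_inj 0 ?_⟩
  rw [← bd_tau, hb', bd_hom, hbc, hom_of_mem]
  exact Sup_mono (fun l h => h.2) (tau_mem 0 c)

theorem exact_of_acyc (hK : ∀ s t, s ⊆ t → K t → K s) (ha : Acyc M K) (p : ℕ)
    (c : OX K (p + 1) →₀ M) (hc : bdM (OX K) (ofc hK) M p c = 0) :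
    ∃ b, bdM (OX K) (ofc hK) M (p + 1) b = c := by
  have h1 : tau K M (p + 1) c ∈ Sup M (KL K) := Sup_mono (fun l h => h.1) (tau_mem _ c)
  obtain ⟨b, hb, hbc⟩ := ha _ h1 (by rw [bd_tau hK, hc, map_zero])
  have h2 : hom V M (p + 3) b ∈ Sup M fun l => KL K l ∧ l.length = p + 3 := by
    intro l hl
    have : Finsupp.filter (fun l => l.length = p + 3) b l ≠ 0 := hl
    rw [Finsupp.filter_apply] at this
    split_ifs at this with h
    · exact ⟨hb l this, h⟩
    · exact absurd rfl this
  obtain ⟨b', hb'⟩ := lift_tau (p + 2) _ h2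
  refine ⟨b', tau_inj _ ?_⟩
  rw [← bd_tau, hb', bd_hom, hbc, hom_of_mem]
  exact Sup_mono (fun l h => h.2) (tau_mem _ c)

/-- simplicial identity in the form wanted by `van_of_action` -/
theorem ofc_ofc (hK : ∀ s t, s ⊆ t → K t → K s) (p : ℕ) (i : Fin (p + 2)) (j : Fin (p + 3))
    (h : (j : ℕ) ≤ i) (x : OX K (p + 2)) :
    ofc hK p i (ofc hK (p + 1) j x) = ofc hK p (Fin.castLT j (lt_of_le_of_lt h i.2))
        (ofc hK (p + 1) i.succ x) := by
  refine Subtype.ext (funext fun k => ?_)
  change x.1 (j.succAbove (i.succAbove k)) =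
    x.1 (i.succ.succAbove ((Fin.castLT j (lt_of_le_of_lt h i.2)).succAbove k))
  simp only [Fin.succAbove, Fin.lt_def]
  split_ifs <;> simp_all <;> omega

end Pool.Agent.TOR.H58
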