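import Pool.Agent.Helper58_TOR.Chn

/-! Abstract flow theorem: a complex in which the vertices can be pushed one at a time towards a
cone point is acyclic. -/

set_option autoImplicit false

namespace Pool.Agent.TOR.H58

open Finsupp

variable {V M : Type*} [AddCommGroup M]

/-- list chains of a complex given by a predicate on sets of vertices -/
def KL (K : Set V → Prop) : List V → Prop := fun l => K {a | a ∈ l}

/-- every cycle of the augmented ordered chain complex is a boundary -/
def Acyc (M : Type*) [AddCommGroup M] (K : Set V → Prop) : Prop :=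
  ∀ c ∈ Sup M (KL K), bd c = 0 → ∃ b ∈ Sup M (KL K), bd b = c

theorem flow_aux {K : Set V → Prop} (hK : ∀ s t, s ⊆ t → K t → K s) (μ : V → ℕ) (e : V)
    (he : ∀ s, K s → (∀ v ∈ s, μ v = 0) → K (insert e s))
    (hf : ∀ L : Finset V, (∀ v ∈ L, K {v}) → (∃ v ∈ L, 0 < μ v) →
      ∃ v ∈ L, ∃ v', μ v' < μ v ∧ ∀ s : Set V, (∀ a ∈ s, a ∈ L) → v ∈ s → K s →
        K (insert v' s)) :
    ∀ (N : ℕ) (L : Finset V), ∑ w ∈ L, μ w = N → (∀ v ∈ L, K {v}) →
      ∀ c ∈ Sup M (fun l => KL K l ∧ ∀ a ∈ l, a ∈ L), bd c = 0 →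
        ∃ b ∈ Sup M (KL K), bd b = c := by
  classical
  intro N
  induction N using Nat.strong_induction_on with
  | _ N ih =>
    intro L hN hL c hc h0
    by_cases hex : ∃ v ∈ L, 0 < μ v
    · obtain ⟨v, hv, v', hlt, hv'⟩ := hf L hL hex
      set φ : V → V := Function.update id v v' with hφ
      have hφv : φ v = v' := by simp [hφ]
      have hφn : ∀ a, a ≠ v → φ a = a := fun a ha => by simp [hφ, ha]
      set L' : Finset V := insert v' (L.erase v) with hL'
      have hφL : ∀ a ∈ L, φ a ∈ L' := by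
        intro a ha
        by_cases h : a = v
        · rw [h, hφv]; exact Finset.mem_insert_self _ _
        · rw [hφn a h]; exact Finset.mem_insert_of_mem (Finset.mem_erase.mpr ⟨h, ha⟩)
      have hsum : ∑ w ∈ L', μ w < N := by
        have h1 : μ v + ∑ w ∈ L.erase v, μ w = N := by rw [Finset.add_sum_erase L μ hv, hN]
        by_cases h : v' ∈ L.erase v
        · rw [hL', Finset.insert_eq_of_mem h]; omega
        · rw [hL', Finset.sum_insert h]; omega
      have hKv' : K {v'} := hK _ _ (Set.singleton_subset_iff.mpr (Set.mem_insert _ _))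
        (hv' {v} (fun a ha => by rw [Set.mem_singleton_iff.mp ha]; exact hv) rfl (hL v hv))
      have hKL' : ∀ w ∈ L', K {w} := by
        intro w hw
        rcases Finset.mem_insert.mp hw with h | h
        · exact h ▸ hKv'
        · exact hL w (Finset.mem_of_mem_erase h)
      have key : ∀ l : List V, KL K l ∧ (∀ a ∈ l, a ∈ L) →
          K ({a | a ∈ l} ∪ φ '' {a | a ∈ l}) := by
        rintro l ⟨h1, h2⟩
        by_cases hvl : v ∈ l
        · refine hK _ _ ?_ (hv' {a | a ∈ l} h2 hvl h1)
          rintro x (hx | ⟨y, hy, rfl⟩)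
          · exact Set.mem_insert_of_mem _ hx
          · by_cases h : y = v
            · rw [h, hφv]; exact Set.mem_insert _ _
            · rw [hφn y h]; exact Set.mem_insert_of_mem _ hy
        · refine hK _ _ ?_ h1
          rintro x (hx | ⟨y, hy, rfl⟩)
          · exact hx
          · have h : y ≠ v := fun h => hvl (h ▸ hy)
            rw [hφn y h]; exact hy
      have hc' : mp φ c ∈ Sup M (fun l => KL K l ∧ ∀ a ∈ l, a ∈ L') := by
        refine mp_mem_Sup (fun l hl => ⟨hK _ _ ?_ (key l hl), fun a ha => ?_⟩) hc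
        · intro x hx
          obtain ⟨y, hy, rfl⟩ := List.mem_map.mp hx
          exact Or.inr ⟨y, hy, rfl⟩
        · obtain ⟨y, hy, rfl⟩ := List.mem_map.mp ha
          exact hφL y (hl.2 y hy)
      have hp : pr φ c ∈ Sup M (KL K) := by
        refine pr_mem_Sup (fun l hl l' h1 _ => hK _ _ ?_ (key l hl)) hc
        intro x hx
        rcases h1 x hx with h | ⟨b, hb, rfl⟩
        · exact Or.inl h
        · exact Or.inr ⟨b, hb, rfl⟩
      have h0' : bd (mp φ c) = 0 := by rw [← mp_bd, h0, map_zero]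
      obtain ⟨b, hb, hbc⟩ := ih _ hsum L' rfl hKL' (mp φ c) hc' h0'
      refine ⟨b - pr φ c, AddSubgroup.sub_mem _ hb hp, ?_⟩
      have h2 := bd_pr φ c
      rw [h0, map_zero, add_zero] at h2
      rw [map_sub, hbc, h2]
      abel
    · have hz : ∀ v ∈ L, μ v = 0 := fun v hv => by
        by_contra h
        exact hex ⟨v, hv, Nat.pos_of_ne_zero h⟩
      refine ⟨cns e c, cns_mem_Sup (fun l hl => ?_) hc, by rw [bd_cns, h0, map_zero, sub_zero]⟩
      refine hK _ _ ?_ (he _ hl.1 (fun v hv => hz v (hl.2 v hv)))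
      intro x hx
      rcases List.mem_cons.mp hx with h | h
      · exact Or.inl h
      · exact Or.inr h

/-- FLOW THEOREM. -/
theorem flow {K : Set V → Prop} (hK : ∀ s t, s ⊆ t → K t → K s) (μ : V → ℕ) (e : V)
    (he : ∀ s, K s → (∀ v ∈ s, μ v = 0) → K (insert e s))
    (hf : ∀ L : Finset V, (∀ v ∈ L, K {v}) → (∃ v ∈ L, 0 < μ v) →
      ∃ v ∈ L, ∃ v', μ v' < μ v ∧ ∀ s : Set V, (∀ a ∈ s, a ∈ L) → v ∈ s → K s →
        K (insert v' s)) : Acyc M K := by
  classical
  intro c hc h0
  set L : Finset V := c.support.biUnion (fun l => l.toFinset) with hL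
  refine flow_aux hK μ e he hf _ L rfl ?_ c ?_ h0
  · intro v hv
    obtain ⟨l, hl, hvl⟩ := Finset.mem_biUnion.mp hv
    refine hK _ _ ?_ (hc l (Finsupp.mem_support_iff.mp hl))
    exact Set.singleton_subset_iff.mpr (List.mem_toFinset.mp hvl)
  · intro l hl
    refine ⟨hc l hl, fun a ha => Finset.mem_biUnion.mpr ⟨l, Finsupp.mem_support_iff.mpr hl, ?_⟩⟩
    exact List.mem_toFinset.mpr ha

/-- a cone is acyclic -/
theorem acyc_cone {K : Set V → Prop} (hK : ∀ s t, s ⊆ t → K t → K s) (e : V)
    (he : ∀ s, K s → K (insert e s)) : Acyc M K := by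
  intro c hc h0
  refine ⟨cns e c, cns_mem_Sup (fun l hl => ?_) hc, by rw [bd_cns, h0, map_zero, sub_zero]⟩
  refine hK _ _ ?_ (he _ hl)
  intro x hx
  rcases List.mem_cons.mp hx with h | h
  · exact Or.inl h
  · exact Or.inr h

end Pool.Agent.TOR.H58
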