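import Pool.Agent.Helper58_TOR.Rel

/-! Elimination of cores; M2: systems that are independent modulo a subspace. -/

set_option autoImplicit false

namespace Pool.Agent.TOR.H58

open Finsupp

variable {V M : Type*} [AddCommGroup M]

/-- the set of entries -/
def ent (l : List V) : Set V := {a | a ∈ l}

theorem ent_finite (l : List V) : (ent l).Finite := List.finite_toSet l

/-- ELIMINATION OF CORES -/
theorem elim (K : Set V → Prop) (hK : ∀ s t, s ⊆ t → K t → K s) (co : Set V → Set V)
    (hco1 : ∀ s, co s ⊆ s) (hco2 : ∀ s t, s ⊆ t → co s ⊆ co t) (n : ℕ)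
    (hrel : ∀ γ : Set V, γ.Finite → γ.Nonempty → (∃ s, K s ∧ co s = γ) →
      ∀ c ∈ Sup M (fun l => (K (ent l) ∧ co (ent l) ⊆ γ) ∧ l.length < n),
        bd c ∈ Sup M (fun l => K (ent l) ∧ co (ent l) ⊂ γ) →
        ∃ x ∈ Sup M (fun l => (K (ent l) ∧ co (ent l) ⊆ γ) ∧ l.length < n + 1),
          c - bd x ∈ Sup M (fun l => K (ent l) ∧ co (ent l) ⊂ γ))
    {b : List V →₀ M} (hb : b ∈ Sup M (fun l => K (ent l) ∧ l.length < n))
    (hbd : bd b ∈ Sup M (fun l => co (ent l) = ∅)) :
    ∃ b' ∈ Sup M (fun l => (K (ent l) ∧ co (ent l) = ∅) ∧ l.length < n), bd b' = bd b := by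
  classical
  have hcf : ∀ l : List V, (co (ent l)).Finite := fun l => (ent_finite l).subset (hco1 _)
  have main : ∀ m : ℕ, ∀ b : List V →₀ M,
      b ∈ Sup M (fun l => (K (ent l) ∧ l.length < n) ∧ (co (ent l)).ncard ≤ m) →
      bd b ∈ Sup M (fun l => co (ent l) = ∅) →
      ∃ b' ∈ Sup M (fun l => (K (ent l) ∧ co (ent l) = ∅) ∧ l.length < n), bd b' = bd b := by
    intro m
    induction m with
    | zero =>
      intro b hb _
      refine ⟨b, Sup_mono (fun l hl => ⟨⟨hl.1.1, ?_⟩, hl.1.2⟩) hb, rfl⟩
      exact (Set.ncard_eq_zero (hcf l)).mp (Nat.le_zero.mp hl.2)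
    | succ m ih =>
      have inner : ∀ Γ : Finset (Set V), (∀ γ ∈ Γ, γ.ncard = m + 1) → ∀ b : List V →₀ M,
          b ∈ Sup M (fun l => (K (ent l) ∧ l.length < n) ∧
            ((co (ent l)).ncard ≤ m ∨ co (ent l) ∈ Γ)) →
          bd b ∈ Sup M (fun l => co (ent l) = ∅) →
          ∃ b' ∈ Sup M (fun l => (K (ent l) ∧ co (ent l) = ∅) ∧ l.length < n),
            bd b' = bd b := by
        intro Γ
        induction Γ using Finset.induction_on with
        | empty =>
          intro _ b hb hbd
          exact ih b (Sup_mono (fun l hl => ⟨hl.1, hl.2.resolve_right (Finset.notMem_empty _)⟩) hb)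
            hbd
        | insert γ Γ hγΓ ih2 =>
          intro hΓ b hb hbd
          have hγc : γ.ncard = m + 1 := hΓ γ (Finset.mem_insert_self _ _)
          have hγf : γ.Finite := Set.finite_of_ncard_ne_zero (by omega)
          have hγn : γ.Nonempty := by
            rw [← Set.ncard_pos hγf]; omega
          obtain ⟨d, hd1, hd2⟩ := filter_mem hb (fun l => co (ent l) = γ)
          have hall : ∀ l : List V, ((co (ent l)).ncard ≤ m ∨ co (ent l) ∈ insert γ Γ) →
              (co (ent l)).ncard ≤ m + 1 := by
            intro l hl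
            rcases hl with h | h
            · omega
            · exact (hΓ _ h).le
          by_cases hd0 : d = 0
          · refine ih2 (fun γ' h => hΓ γ' (Finset.mem_insert_of_mem h)) b ?_ hbd
            rw [hd0, sub_zero] at hd2
            refine Sup_mono (fun l hl => ⟨hl.1.1, ?_⟩) hd2
            rcases hl.1.2 with h | h
            · exact Or.inl h
            · exact Or.inr ((Finset.mem_insert.mp h).resolve_left hl.2)
          · obtain ⟨l0, hl0⟩ : ∃ l0, d l0 ≠ 0 := by
              by_contra h
              push Not at h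
              exact hd0 (Finsupp.ext h)
            have hex : ∃ s, K s ∧ co s = γ := ⟨ent l0, (hd1 l0 hl0).1.1.1, (hd1 l0 hl0).2⟩
            have hbd2 : bd (b - d) ∈ Sup M (fun l => co (ent l) ≠ γ) := by
              refine bd_mem_Sup ?_ hd2
              intro l hl l' hl' _ h
              have h1 : co (ent l') ⊆ co (ent l) := hco2 _ _ fun a ha => hl' a ha
              rw [h] at h1
              refine hl.2 (Set.eq_of_subset_of_ncard_le h1 ?_ (hcf l)).symm
              rw [hγc]
              exact hall l hl.1.2
            have hbdd : bd d ∈ Sup M (fun l => K (ent l) ∧ co (ent l) ⊂ γ) := by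
              have h1 : bd d ∈ Sup M (fun l => K (ent l) ∧ co (ent l) ⊆ γ) := by
                refine bd_mem_Sup ?_ hd1
                intro l hl l' hl' _
                refine ⟨hK _ _ (fun a ha => hl' a ha) hl.1.1.1, ?_⟩
                rw [← hl.2]
                exact hco2 _ _ fun a ha => hl' a ha
              have h2 : bd d ∈ Sup M (fun l => co (ent l) ≠ γ) := by
                have h3 : bd d = bd b - bd (b - d) := by rw [map_sub]; abel
                rw [h3]
                refine AddSubgroup.sub_mem _ (Sup_mono (fun l hl h => ?_) hbd) hbd2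
                rw [hl] at h
                exact hγn.ne_empty h.symm
              intro l hl
              exact ⟨(h1 l hl).1, ssubset_iff_subset_ne.mpr ⟨(h1 l hl).2, h2 l hl⟩⟩
            obtain ⟨x, hx1, hx2⟩ := hrel γ hγf hγn hex d
              (Sup_mono (fun l hl => ⟨⟨hl.1.1.1, hl.2.subset⟩, hl.1.1.2⟩) hd1) hbdd
            have hbx : bd (b - bd x) = bd b := by rw [map_sub, bd_bd, sub_zero]
            have hnew : b - bd x ∈ Sup M (fun l => (K (ent l) ∧ l.length < n) ∧
                ((co (ent l)).ncard ≤ m ∨ co (ent l) ∈ Γ)) := by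
              have h1 : b - bd x = (b - d) + (d - bd x) := by abel
              rw [h1]
              refine AddSubgroup.add_mem _ (Sup_mono ?_ hd2) ?_
              · intro l hl
                refine ⟨hl.1.1, ?_⟩
                rcases hl.1.2 with h | h
                · exact Or.inl h
                · exact Or.inr ((Finset.mem_insert.mp h).resolve_left hl.2)
              · have h2 : d - bd x ∈ Sup M (fun l : List V => l.length < n) := by
                  refine AddSubgroup.sub_mem _ (Sup_mono (fun l hl => hl.1.1.2) hd1) ?_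
                  refine bd_mem_Sup ?_ hx1
                  intro l hl l' _ h
                  have := hl.2
                  omega
                intro l hl
                have h3 := hx2 l hl
                refine ⟨⟨h3.1, h2 l hl⟩, Or.inl ?_⟩
                have h4 := Set.ncard_lt_ncard h3.2 hγf
                omega
            obtain ⟨b', hb', hb'2⟩ := ih2 (fun γ' h => hΓ γ' (Finset.mem_insert_of_mem h))
              (b - bd x) hnew (by rw [hbx]; exact hbd)
            exact ⟨b', hb', by rw [hb'2, hbx]⟩
      intro b hb hbd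
      let Γ : Finset (Set V) := (b.support.image fun l => co (ent l)).filter fun γ =>
        γ.ncard = m + 1
      refine inner Γ (fun γ h => (Finset.mem_filter.mp h).2) b ?_ hbd
      intro l hl
      have h1 := hb l hl
      refine ⟨h1.1, ?_⟩
      by_cases h2 : (co (ent l)).ncard = m + 1
      · exact Or.inr (Finset.mem_filter.mpr ⟨Finset.mem_image.mpr
          ⟨l, Finsupp.mem_support_iff.mpr hl, rfl⟩, h2⟩)
      · left
        have := h1.2
        omega
  obtain ⟨m, hm⟩ : ∃ m, ∀ l ∈ b.support, (co (ent l)).ncard ≤ m :=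
    ⟨b.support.sup fun l => (co (ent l)).ncard, fun l hl =>
      Finset.le_sup (f := fun l => (co (ent l)).ncard) hl⟩
  exact main m b (fun l hl => ⟨hb l hl, hm l (Finsupp.mem_support_iff.mpr hl)⟩) hbd

section core

variable {k E : Type*} [Field k] [AddCommGroup E] [Module k E] (cls : V → E)

/-- core of a set of vertices modulo N: the elements whose class depends on the others -/
def core (N : Submodule k E) (s : Set V) : Set V :=
  {v | v ∈ s ∧ cls v ∈ N ⊔ Submodule.span k (cls '' (s \ {v}))}

variable {cls}

theorem core_sub (N : Submodule k E) (s : Set V) : core cls N s ⊆ s := fun _ h => h.1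

theorem core_mono (N : Submodule k E) {s t : Set V} (h : s ⊆ t) : core cls N s ⊆ core cls N t := by
  rintro v ⟨h1, h2⟩
  refine ⟨h h1, ?_⟩
  exact (sup_le_sup_left (Submodule.span_mono (Set.image_mono
    (Set.sdiff_subset_sdiff_left h))) N) h2

/-- classes of the core depend on the other elements of the core -/
theorem core_core (N : Submodule k E) (s : Set V) : core cls N (core cls N s) = core cls N s := by
  refine Set.Subset.antisymm (core_sub N _) ?_
  intro v hv
  refine ⟨hv, ?_⟩
  -- finite combination with smallest number of elements outside the core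
  have h1 : cls v ∈ N ⊔ Submodule.span k (cls '' (s \ {v})) := hv.2
  have key : ∀ (T : Finset V), (↑T : Set V) ⊆ s \ {v} →
      cls v ∈ N ⊔ Submodule.span k (cls '' (T : Set V)) →
      cls v ∈ N ⊔ Submodule.span k (cls '' (core cls N s \ {v})) := by
    classical
    intro T
    induction T using Finset.strongInduction with
    | H T ih =>
      intro hT hvT
      by_cases hall : ∀ w ∈ T, w ∈ core cls N s
      · refine (sup_le_sup_left (Submodule.span_mono (Set.image_mono ?_)) N) hvT
        intro w hw
        exact ⟨hall w hw, (hT hw).2⟩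
      · push Not at hall
        obtain ⟨w, hwT, hwc⟩ := hall
        refine ih (T.erase w) (Finset.erase_ssubset hwT)
          (fun a ha => hT (Finset.mem_of_mem_erase ha)) ?_
        have h2 : (T : Set V) = insert w ((T.erase w : Finset V) : Set V) := by
          rw [← Finset.coe_insert, Finset.insert_erase hwT]
        rw [h2, Set.image_insert_eq] at hvT
        have h3 : Submodule.span k (insert (cls w) (cls '' ((T.erase w : Finset V) : Set V))) =
            Submodule.span k {cls w} ⊔
              Submodule.span k (cls '' ((T.erase w : Finset V) : Set V)) :=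
          Submodule.span_insert _ _
        rw [h3] at hvT
        have h4 : cls v ∈ Submodule.span k {cls w} ⊔
            (N ⊔ Submodule.span k (cls '' ((T.erase w : Finset V) : Set V))) := by
          rw [sup_left_comm]; exact hvT
        obtain ⟨x, hx, y, hy, hxy⟩ := Submodule.mem_sup.mp h4
        obtain ⟨a, rfl⟩ := Submodule.mem_span_singleton.mp hx
        by_cases ha : a = 0
        · rw [ha, zero_smul, zero_add] at hxy
          rw [← hxy]; exact hy
        · exfalso
          refine hwc ⟨(hT hwT).1, ?_⟩
          have h5 : cls w = a⁻¹ • (cls v - y) := by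
            rw [← hxy, add_sub_cancel_right, smul_smul, inv_mul_cancel₀ ha, one_smul]
          rw [h5]
          refine Submodule.smul_mem _ _ (Submodule.sub_mem _ ?_ ?_)
          · refine Submodule.mem_sup_right (Submodule.subset_span ⟨v, ⟨hv.1, ?_⟩, rfl⟩)
            exact fun h => (hT hwT).2 h.symm
          · refine (sup_le_sup_left (Submodule.span_mono (Set.image_mono ?_)) N) hy
            intro b hb
            have hb' := Finset.mem_erase.mp (Finset.mem_coe.mp hb)
            exact ⟨(hT hb'.2).1, hb'.1⟩
  obtain ⟨x, hx, y, hy, hxy⟩ := Submodule.mem_sup.mp h1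
  obtain ⟨T, hT1, hT2⟩ := Submodule.mem_span_finite_of_mem_span hy
  classical
  have : Nonempty V := ⟨v⟩
  choose! f hf using fun (e : E) (he : e ∈ (T : Set E)) => hT1 he
  refine key (T.image f) ?_ ?_
  · intro w hw
    obtain ⟨e, he, rfl⟩ := Finset.mem_image.mp (Finset.mem_coe.mp hw)
    exact (hf e he).1
  · rw [← hxy]
    refine Submodule.add_mem _ (Submodule.mem_sup_left hx) (Submodule.mem_sup_right ?_)
    refine Submodule.span_mono ?_ hT2
    intro e he
    exact ⟨f e, Finset.mem_coe.mpr (Finset.mem_image_of_mem f he), (hf e he).2⟩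

theorem core_union (N : Submodule k E) (γ t : Set V) (hγ : core cls N γ = γ) :
    core cls N (γ ∪ t) = γ ∧ (∀ a ∈ t, a ∉ γ) ↔
      core cls (N ⊔ Submodule.span k (cls '' γ)) t = ∅ := by
  have e1 : ∀ a, a ∉ γ → (N ⊔ Submodule.span k (cls '' γ)) ⊔ Submodule.span k (cls '' (t \ {a})) =
      N ⊔ Submodule.span k (cls '' ((γ ∪ t) \ {a})) := by
    intro a ha
    rw [sup_assoc, ← Submodule.span_union, ← Set.image_union]
    congr 3
    rw [Set.union_sdiff_distrib, Set.sdiff_singleton_eq_self ha]
  constructor
  · rintro ⟨h1, h2⟩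
    refine Set.eq_empty_iff_forall_notMem.mpr ?_
    rintro a ⟨ha, hac⟩
    have h3 := h2 a ha
    refine h3 ?_
    rw [← h1]
    refine ⟨Or.inr ha, ?_⟩
    rw [← e1 a h3]
    exact hac
  · intro h
    have h2 : ∀ a ∈ t, a ∉ γ := by
      intro a ha haγ
      have : a ∈ core cls (N ⊔ Submodule.span k (cls '' γ)) t :=
        ⟨ha, Submodule.mem_sup_left (Submodule.mem_sup_right (Submodule.subset_span ⟨a, haγ, rfl⟩))⟩
      rw [h] at this
      exact this
    refine ⟨Set.Subset.antisymm ?_ ?_, h2⟩
    · rintro a ⟨ha | ha, hac⟩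
      · exact ha
      · exfalso
        have : a ∈ core cls (N ⊔ Submodule.span k (cls '' γ)) t := by
          refine ⟨ha, ?_⟩
          rw [e1 a (h2 a ha)]
          exact hac
        rw [h] at this
        exact this
    · conv_lhs => rw [← hγ]
      exact core_mono N Set.subset_union_left

end core

section m2

variable {k E : Type*} [Field k] [AddCommGroup E] [Module k E]

/-- the flag complex of systems compatible with γ with classes outside N -/
def KM (cmp : V → V → Prop) (cls : V → E) (γ : Set V) (N : Submodule k E) (s : Set V) : Prop :=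
  (∀ v ∈ s, ∀ w ∈ s, cmp v w) ∧ (∀ v ∈ s, ∀ w ∈ γ, cmp v w) ∧ ∀ v ∈ s, cls v ∉ N

/-- the complex of systems compatible with γ with classes independent modulo N -/
def IM (cmp : V → V → Prop) (cls : V → E) (γ : Set V) (N : Submodule k E) (s : Set V) : Prop :=
  (∀ v ∈ s, ∀ w ∈ s, cmp v w) ∧ (∀ v ∈ s, ∀ w ∈ γ, cmp v w) ∧ core cls N s = ∅

theorem KM_down {cmp : V → V → Prop} {cls : V → E} {γ : Set V} {N : Submodule k E} (s t : Set V)
    (h : s ⊆ t) (ht : KM cmp cls γ N t) : KM cmp cls γ N s :=
  ⟨fun v hv w hw => ht.1 v (h hv) w (h hw), fun v hv w hw => ht.2.1 v (h hv) w hw,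
    fun v hv => ht.2.2 v (h hv)⟩

theorem IM_down {cmp : V → V → Prop} {cls : V → E} {γ : Set V} {N : Submodule k E} (s t : Set V)
    (h : s ⊆ t) (ht : IM cmp cls γ N t) : IM cmp cls γ N s :=
  ⟨fun v hv w hw => ht.1 v (h hv) w (h hw), fun v hv w hw => ht.2.1 v (h hv) w hw,
    Set.subset_empty_iff.mp (ht.2.2 ▸ core_mono N h)⟩

/-- M2 -/
theorem m2 (cmp : V → V → Prop) (hsym : ∀ v w, cmp v w → cmp w v) (cls : V → E)
    (hflow : ∀ (γ : Finset V) (N : Submodule k E), (∀ v ∈ γ, ∀ w ∈ γ, cmp v w) →
      (∃ v, cmp v v ∧ (∀ w ∈ γ, cmp v w) ∧ cls v ∉ N) → Acyc M (KM cmp cls (γ : Set V) N)) :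
    ∀ (r : ℕ) (γ : Finset V) (N : Submodule k E), (∀ v ∈ γ, ∀ w ∈ γ, cmp v w) →
      (∀ γ' : Finset V, γ ⊆ γ' → (∀ v ∈ γ', ∀ w ∈ γ', cmp v w) → ∀ T : Finset E, T.card < r →
        ∃ v, cmp v v ∧ (∀ w ∈ γ', cmp v w) ∧ cls v ∉ N ⊔ Submodule.span k (T : Set E)) →
      AcT M r (IM cmp cls (γ : Set V) N) := by
  classical
  intro r
  induction r using Nat.strong_induction_on with
  | _ r ih =>
    intro γ N hγ hfull c hc h0
    by_cases hr : r = 0
    · refine ⟨0, AddSubgroup.zero_mem _, ?_⟩
      rw [map_zero]
      symm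
      ext l
      by_contra h5
      have := (hc l h5).2
      omega
    have hne : ∃ v, cmp v v ∧ (∀ w ∈ γ, cmp v w) ∧ cls v ∉ N := by
      obtain ⟨v, h1, h2, h3⟩ := hfull γ (Finset.Subset.refl _) hγ ∅ (by simpa using Nat.pos_of_ne_zero hr)
      refine ⟨v, h1, h2, fun h => h3 (Submodule.mem_sup_left h)⟩
    have hIK : ∀ s, IM cmp cls (γ : Set V) N s → KM cmp cls (γ : Set V) N s := by
      rintro s ⟨h1, h2, h3⟩
      refine ⟨h1, h2, fun v hv h => ?_⟩
      have : v ∈ core cls N s := ⟨hv, Submodule.mem_sup_left h⟩
      rw [h3] at this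
      exact this
    obtain ⟨b0, hb0, hb0c⟩ := hflow γ N hγ hne c (Sup_mono (fun l h => hIK _ h.1) hc) h0
    obtain ⟨b, hb, hbc⟩ := trunc hb0 (Sup_mono (fun _ h => h.2) hc) hb0c
    suffices hrel : ∀ γ1 : Set V, γ1.Finite → γ1.Nonempty →
        (∃ s, KM cmp cls (γ : Set V) N s ∧ core cls N s = γ1) →
        ∀ c ∈ Sup M (fun l => (KM cmp cls (γ : Set V) N (ent l) ∧ core cls N (ent l) ⊆ γ1) ∧
          l.length < r + 1),
        bd c ∈ Sup M (fun l => KM cmp cls (γ : Set V) N (ent l) ∧ core cls N (ent l) ⊂ γ1) →
        ∃ x ∈ Sup M (fun l => (KM cmp cls (γ : Set V) N (ent l) ∧ core cls N (ent l) ⊆ γ1) ∧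
          l.length < r + 1 + 1),
          c - bd x ∈ Sup M (fun l => KM cmp cls (γ : Set V) N (ent l) ∧
            core cls N (ent l) ⊂ γ1) by
      obtain ⟨b', hb', hb'c⟩ := elim (KM cmp cls (γ : Set V) N) KM_down (core cls N)
        (core_sub N) (fun s t h => core_mono N h) (r + 1) hrel hb (by
          rw [hbc]
          exact Sup_mono (fun l h => h.1.2.2) hc)
      refine ⟨b', Sup_mono (fun l hl => ?_) hb', by rw [hb'c, hbc]⟩
      exact ⟨hl.1.1.1, hl.1.1.2.1, hl.1.2⟩
    · intro γ1 hγf hγn hex c1 hc1 hbc1
      obtain ⟨s0, hs0, hs0c⟩ := hex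
      have hγ1 : core cls N γ1 = γ1 := by rw [← hs0c]; exact core_core N s0
      have hγ1s : γ1 ⊆ s0 := by rw [← hs0c]; exact core_sub N s0
      obtain ⟨v1, hv1⟩ := hγn
      set g1 : Finset V := hγf.toFinset with hg1
      have hg1c : (g1 : Set V) = γ1 := hγf.coe_toFinset
      have hg1m : ∀ a, a ∈ g1.toList ↔ a ∈ γ1 := by
        intro a
        rw [Finset.mem_toList, ← Finset.mem_coe, hg1c]
      have hset1 : {a | a ∈ g1.toList} = γ1 := by
        ext a
        exact hg1m a
      have hcard : 2 ≤ g1.card := by
        by_contra h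
        have h1 : g1.card = 1 := by
          have : 0 < g1.card := Finset.card_pos.mpr ⟨v1, by rw [← Finset.mem_coe, hg1c]; exact hv1⟩
          omega
        obtain ⟨u, hu⟩ := Finset.card_eq_one.mp h1
        have h2 : γ1 = {u} := by rw [← hg1c, hu, Finset.coe_singleton]
        have h3 : v1 ∈ core cls N γ1 := by rw [hγ1]; exact hv1
        rw [h2] at hv1
        have h4 : v1 = u := hv1
        rw [h2, h4] at h3
        have h5 := h3.2
        rw [Set.sdiff_self, Set.image_empty, Submodule.span_empty, sup_bot_eq] at h5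
        exact hs0.2.2 u (hγ1s (by rw [h2]; rfl)) h5
      set N1 : Submodule k E := N ⊔ Submodule.span k (cls '' γ1) with hN1
      have hN1' : N1 = N ⊔ Submodule.span k (cls '' (γ1 \ {v1})) := by
        refine le_antisymm (sup_le le_sup_left (Submodule.span_le.mpr ?_))
          (sup_le_sup_left (Submodule.span_mono (Set.image_mono Set.sdiff_subset)) N)
        rintro _ ⟨w, hw, rfl⟩
        by_cases hwv : w = v1
        · rw [hwv]
          have : v1 ∈ core cls N γ1 := by rw [hγ1]; exact hv1
          exact this.2
        · exact Submodule.mem_sup_right (Submodule.subset_span ⟨w, ⟨hw, hwv⟩, rfl⟩)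
      -- gamma u gamma1
      have hpair : ∀ v ∈ γ ∪ g1, ∀ w ∈ γ ∪ g1, cmp v w := by
        intro v hv w hw
        rcases Finset.mem_union.mp hv with hv | hv
        · rcases Finset.mem_union.mp hw with hw | hw
          · exact hγ v hv w hw
          · refine hsym _ _ (hs0.2.1 w (hγ1s ?_) v hv)
            rw [← hg1c]; exact hw
        · have hv' : v ∈ s0 := hγ1s (by rw [← hg1c]; exact hv)
          rcases Finset.mem_union.mp hw with hw | hw
          · exact hs0.2.1 v hv' w hw
          · exact hs0.1 v hv' w (hγ1s (by rw [← hg1c]; exact hw))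
      have hIH : AcT M (r - (g1.card - 1)) (IM cmp cls ((γ ∪ g1 : Finset V) : Set V) N1) := by
        refine ih _ (by omega) (γ ∪ g1) N1 hpair ?_
        intro γ' h1 h2 T hT
        obtain ⟨v, h3, h4, h5⟩ := hfull γ' (Finset.union_subset_left h1) h2
          (T ∪ (g1.erase v1).image cls) (by
            have e1 : (g1.erase v1).card = g1.card - 1 :=
              Finset.card_erase_of_mem (by rw [← Finset.mem_coe, hg1c]; exact hv1)
            have e2 := Finset.card_union_le T ((g1.erase v1).image cls)
            have e3 := Finset.card_image_le (s := g1.erase v1) (f := cls)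
            omega)
        refine ⟨v, h3, h4, fun h => h5 ?_⟩
        have e4 : N ⊔ Submodule.span k ((T ∪ (g1.erase v1).image cls : Finset E) : Set E) =
            N1 ⊔ Submodule.span k (T : Set E) := by
          rw [hN1', Finset.coe_union, Submodule.span_union, Finset.coe_image, Finset.coe_erase,
            hg1c, sup_assoc, sup_comm (Submodule.span k (T : Set E))]
        rw [e4]
        exact h
      have hJ : ∀ t : Set V, IM cmp cls ((γ ∪ g1 : Finset V) : Set V) N1 t ↔
          (∀ a ∈ t, a ∉ g1.toList) ∧
          (KM cmp cls (γ : Set V) N ({a | a ∈ g1.toList} ∪ t) ∧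
            core cls N ({a | a ∈ g1.toList} ∪ t) ⊆ γ1) ∧
          ¬ (KM cmp cls (γ : Set V) N ({a | a ∈ g1.toList} ∪ t) ∧
            core cls N ({a | a ∈ g1.toList} ∪ t) ⊂ γ1) := by
        intro t
        rw [hset1]
        have hcu := core_union (cls := cls) N γ1 t hγ1
        constructor
        · rintro ⟨h1, h2, h3⟩
          obtain ⟨h4, h5⟩ := hcu.mpr h3
          refine ⟨fun a ha h => h5 a ha ((hg1m a).mp h), ⟨⟨?_, ?_, ?_⟩, h4.subset⟩, fun h => ?_⟩
          · intro v hv w hw
            rcases hv with hv | hv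
            · rcases hw with hw | hw
              · exact hs0.1 v (hγ1s hv) w (hγ1s hw)
              · refine hsym _ _ (h2 w hw v ?_)
                rw [Finset.coe_union, hg1c]; exact Or.inr hv
            · rcases hw with hw | hw
              · refine h2 v hv w ?_
                rw [Finset.coe_union, hg1c]; exact Or.inr hw
              · exact h1 v hv w hw
          · intro v hv w hw
            rcases hv with hv | hv
            · exact hs0.2.1 v (hγ1s hv) w hw
            · refine h2 v hv w ?_
              rw [Finset.coe_union]; exact Or.inl hw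
          · intro v hv h
            rcases hv with hv | hv
            · exact hs0.2.2 v (hγ1s hv) h
            · have : v ∈ core cls N1 t :=
                ⟨hv, Submodule.mem_sup_left (Submodule.mem_sup_left h)⟩
              rw [h3] at this
              exact this
          · rw [h4] at h
            exact h.2.2 subset_rfl
        · rintro ⟨h1, ⟨⟨h2, h3, h4⟩, h5⟩, h6⟩
          have h7 : core cls N (γ1 ∪ t) = γ1 := by
            by_contra h
            exact h6 ⟨⟨h2, h3, h4⟩, ssubset_iff_subset_ne.mpr ⟨h5, h⟩⟩
          refine ⟨fun v hv w hw => h2 v (Or.inr hv) w (Or.inr hw), fun v hv w hw => ?_,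
            hcu.mp ⟨h7, fun a ha h => h1 a ha ((hg1m a).mpr h)⟩⟩
          rw [Finset.coe_union, hg1c] at hw
          rcases hw with hw | hw
          · exact h3 v (Or.inr hv) w hw
          · exact h2 v (Or.inr hv) w (Or.inl hw)
      have hlen : g1.toList.length = g1.card := Finset.length_toList g1
      refine rel_step (K := fun s => KM cmp cls (γ : Set V) N s ∧ core cls N s ⊆ γ1)
        (L := fun s => KM cmp cls (γ : Set V) N s ∧ core cls N s ⊂ γ1)
        (fun s t h ht => ⟨KM_down s t h ht.1, (core_mono N h).trans ht.2⟩)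
        (fun s t h ht => ⟨KM_down s t h ht.1, lt_of_le_of_lt (core_mono N h) ht.2⟩)
        g1.toList (Finset.nodup_toList g1) ?_ _ hJ (fun s t h => IM_down s t h)
        (r - (g1.card - 1)) (r + 1) (by omega) hIH hc1 hbc1
      intro s h1 h2 g hg
      have h3 : core cls N s = γ1 := by
        by_contra h
        exact h2 ⟨h1.1, ssubset_iff_subset_ne.mpr ⟨h1.2, h⟩⟩
      have h4 : g ∈ core cls N s := by rw [h3]; exact (hg1m g).mp hg
      exact h4.1

end m2

end Pool.Agent.TOR.H58
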