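import Pool.Agent.Helper58_TOR.Fr

/-! Almost invariant sets: class, stabilisers, finiteness of crossings; the flow theorem for free
groups. -/

set_option autoImplicit false
set_option linter.unusedVariables false
set_option linter.unusedSectionVars false

namespace Pool.Agent.TOR.H58

open Pointwise Set

section ai

variable {G : Type*} [Group G]

/-- coboundary in direction s -/
def Dl (s : G) (A : Set G) : Set G := {a | ¬ (a * s ∈ A ↔ a ∈ A)}

/-- almost invariant under right translations -/
def AI (A : Set G) : Prop := ∀ s : G, (Dl s A).Finite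

theorem Dl_compl (s : G) (A : Set G) : Dl s Aᶜ = Dl s A := by
  ext a
  simp only [Dl, mem_ofPred_eq, mem_compl_iff, not_iff_not]

theorem Dl_inter (s : G) (A B : Set G) : Dl s (A ∩ B) ⊆ Dl s A ∪ Dl s B := by
  intro a ha
  by_contra h
  simp only [Dl, mem_union, mem_ofPred_eq, not_or, not_not] at h
  refine ha ?_
  rw [mem_inter_iff, mem_inter_iff, h.1, h.2]

theorem Dl_smul (s g : G) (A : Set G) : Dl s (g • A) = g • Dl s A := by
  ext a
  simp only [Dl, mem_smul_set_iff_inv_smul_mem, smul_eq_mul, mem_ofPred_eq, mul_assoc]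

theorem Dl_mul (s t : G) (A : Set G) : Dl (s * t) A ⊆ Dl s A ∪ (fun a => a * s⁻¹) '' Dl t A := by
  intro a ha
  by_cases h : a ∈ Dl s A
  · exact Or.inl h
  · refine Or.inr ⟨a * s, fun h2 => ?_, by simp⟩
    simp only [Dl, mem_ofPred_eq, not_not] at h
    refine ha ?_
    rw [← mul_assoc, h2, h]

theorem Dl_inv (s : G) (A : Set G) : Dl s⁻¹ A ⊆ (fun a => a * s) '' Dl s A := by
  intro a ha
  refine ⟨a * s⁻¹, fun h => ?_, by simp⟩
  refine ha ?_
  rw [inv_mul_cancel_right] at h
  exact h.symm

theorem Dl_one (A : Set G) : Dl 1 A = ∅ := by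
  ext a
  simp [Dl]

theorem AI.compl {A : Set G} (h : AI A) : AI Aᶜ := fun s => by rw [Dl_compl]; exact h s

theorem AI.inter {A B : Set G} (h : AI A) (h' : AI B) : AI (A ∩ B) := fun s =>
  ((h s).union (h' s)).subset (Dl_inter s A B)

theorem AI.smul {A : Set G} (h : AI A) (g : G) : AI (g • A) := fun s => by
  rw [Dl_smul]
  exact (h s).smul_set

theorem ai_of_closure {S : Set G} (hS : Subgroup.closure S = ⊤) {A : Set G}
    (h : ∀ s ∈ S, (Dl s A).Finite) : AI A := by
  intro s
  have hs : s ∈ Subgroup.closure S := by rw [hS]; trivial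
  induction hs using Subgroup.closure_induction with
  | mem x hx => exact h x hx
  | one => rw [Dl_one]; exact Set.finite_empty
  | mul x y _ _ hx hy => exact (hx.union (hy.image _)).subset (Dl_mul x y A)
  | inv x _ hx => exact (hx.image _).subset (Dl_inv x A)

/-- indicator -/
noncomputable def ind (A : Set G) (a : G) : ℤ := A.indicator (fun _ => 1) a

theorem ind_compl (A : Set G) (a : G) : ind Aᶜ a = 1 - ind A a := by
  unfold ind
  by_cases h : a ∈ A
  · rw [Set.indicator_of_mem h, Set.indicator_of_notMem (by simpa using h)]; norm_num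
  · rw [Set.indicator_of_notMem h, Set.indicator_of_mem (by simpa using h)]; norm_num

theorem ind_union {A B : Set G} (h : Disjoint A B) (a : G) : ind (A ∪ B) a = ind A a + ind B a := by
  unfold ind
  rw [Set.indicator_union_of_disjoint h]

theorem ind_smul (g : G) (A : Set G) (a : G) : ind (g • A) a = ind A (g⁻¹ * a) := by
  unfold ind
  by_cases h : g⁻¹ * a ∈ A
  · rw [Set.indicator_of_mem h,
      Set.indicator_of_mem (by rw [mem_smul_set_iff_inv_smul_mem]; exact h)]
  · rw [Set.indicator_of_notMem h,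
      Set.indicator_of_notMem (by rw [mem_smul_set_iff_inv_smul_mem]; exact h)]

/-- the class of an almost invariant set -/
noncomputable def cl (A : Set G) (s : G) : ℤ := ∑ᶠ a, (ind A (a * s) - ind A a)

theorem supp_cl (A : Set G) (s : G) :
    Function.support (fun a => ind A (a * s) - ind A a) ⊆ Dl s A := by
  intro a ha h
  refine ha ?_
  show ind A (a * s) - ind A a = 0
  unfold ind
  by_cases h1 : a ∈ A
  · rw [Set.indicator_of_mem h1, Set.indicator_of_mem (h.mpr h1), sub_self]
  · rw [Set.indicator_of_notMem h1, Set.indicator_of_notMem (fun h2 => h1 (h.mp h2)), sub_self]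

theorem supp_fin {A : Set G} (h : AI A) (s : G) :
    (Function.support (fun a => ind A (a * s) - ind A a)).Finite := (h s).subset (supp_cl A s)

theorem cl_union {A B : Set G} (hA : AI A) (hB : AI B) (h : Disjoint A B) :
    cl (A ∪ B) = cl A + cl B := by
  funext s
  show _ = cl A s + cl B s
  unfold cl
  rw [← finsum_add_distrib (supp_fin hA s) (supp_fin hB s)]
  refine finsum_congr fun a => ?_
  rw [ind_union h, ind_union h]
  ring

theorem cl_compl (A : Set G) : cl Aᶜ = - cl A := by
  funext s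
  show _ = - cl A s
  unfold cl
  rw [← finsum_neg_distrib]
  refine finsum_congr fun a => ?_
  rw [ind_compl, ind_compl]
  ring

theorem cl_smul (g : G) (A : Set G) : cl (g • A) = cl A := by
  funext s
  unfold cl
  rw [← finsum_comp_equiv (Equiv.mulLeft g⁻¹) (f := fun a => ind A (a * s) - ind A a)]
  refine finsum_congr fun a => ?_
  rw [ind_smul, ind_smul, Equiv.coe_mulLeft, mul_assoc]

theorem cl_mul {A : Set G} (hA : AI A) (s t : G) : cl A (s * t) = cl A s + cl A t := by
  unfold cl
  rw [← finsum_comp_equiv (Equiv.mulRight s) (f := fun a => ind A (a * t) - ind A a),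
    ← finsum_add_distrib (supp_fin hA s) ?_]
  · refine finsum_congr fun a => ?_
    rw [Equiv.coe_mulRight, mul_assoc]
    ring
  · have h2 : ((Equiv.mulRight s) ⁻¹'
        (Function.support fun a => ind A (a * t) - ind A a)).Finite :=
      (supp_fin hA t).preimage (Equiv.injective _).injOn
    exact h2

theorem cl_empty : cl (∅ : Set G) = 0 := by
  funext s
  unfold cl
  simp [ind]

theorem cl_univ : cl (Set.univ : Set G) = 0 := by
  rw [← Set.compl_empty, cl_compl, cl_empty, neg_zero]

theorem ne_of_cl {A : Set G} (h : cl A ≠ 0) : A.Nonempty ∧ A ≠ Set.univ := by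
  constructor
  · rw [Set.nonempty_iff_ne_empty]
    rintro rfl
    exact h cl_empty
  · rintro rfl
    exact h cl_univ

/-- invariant sets -/
theorem eq_of_Dl_empty {S : Set G} (hS : Subgroup.closure S = ⊤) {A : Set G}
    (h : ∀ s ∈ S, Dl s A = ∅) : A = ∅ ∨ A = Set.univ := by
  have h1 : ∀ s, Dl s A = ∅ := by
    intro s
    have hs : s ∈ Subgroup.closure S := by rw [hS]; trivial
    induction hs using Subgroup.closure_induction with
    | mem x hx => exact h x hx
    | one => exact Dl_one A
    | mul x y _ _ hx hy =>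
      refine Set.subset_empty_iff.mp ((Dl_mul x y A).trans ?_)
      rw [hx, hy]; simp
    | inv x _ hx =>
      refine Set.subset_empty_iff.mp ((Dl_inv x A).trans ?_)
      rw [hx]; simp
  rcases Set.eq_empty_or_nonempty A with h2 | ⟨a, ha⟩
  · exact Or.inl h2
  · refine Or.inr (Set.eq_univ_of_forall fun b => ?_)
    have h3 := h1 (a⁻¹ * b)
    have h4 : a ∉ Dl (a⁻¹ * b) A := by rw [h3]; exact Set.notMem_empty _
    simp only [Dl, mem_ofPred_eq, not_not, mul_inv_cancel_left] at h4
    exact h4.mpr ha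

/-- stabilisers are trivial -/
theorem stab_trivial [IsMulTorsionFree G] {S : Set G} (hS : Subgroup.closure S = ⊤) {A : Set G}
    (hA : AI A) (h0 : A.Nonempty) (h1 : A ≠ Set.univ) {g : G} (hg : g • A = A ∨ g • A = Aᶜ) :
    g = 1 := by
  obtain ⟨s, hs, hne⟩ : ∃ s ∈ S, (Dl s A).Nonempty := by
    by_contra h
    push Not at h
    rcases eq_of_Dl_empty hS h with h2 | h2
    · exact h0.ne_empty h2
    · exact h1 h2
  have hgD : g • Dl s A = Dl s A := by
    rw [← Dl_smul]
    rcases hg with h | h
    · rw [h]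
    · rw [h, Dl_compl]
  obtain ⟨a, ha⟩ := hne
  have hpow : ∀ n : ℕ, g ^ n * a ∈ Dl s A := by
    intro n
    induction n with
    | zero => simpa using ha
    | succ n ih =>
      rw [← hgD, pow_succ', mul_assoc, ← smul_eq_mul]
      exact smul_mem_smul_set ih
  have hninj : ¬ Function.Injective (fun n : ℕ => g ^ n * a) := fun hinj =>
    Set.infinite_of_injective_forall_mem hinj hpow (hA s)
  by_contra hg1
  refine hninj fun m n hmn => ?_
  have h2 : g ^ m = g ^ n := mul_right_cancel hmn
  by_contra hne'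
  rcases Nat.lt_or_gt_of_ne hne' with h3 | h3
  · have h4 : g ^ (n - m) = 1 := by
      rw [pow_sub _ h3.le, h2, mul_inv_cancel]
    exact hg1 ((pow_eq_one_iff_left (by omega)).mp h4)
  · have h4 : g ^ (m - n) = 1 := by
      rw [pow_sub _ h3.le, h2, mul_inv_cancel]
    exact hg1 ((pow_eq_one_iff_left (by omega)).mp h4)

end ai

section free

open FreeGroup

variable {X : Type*} [DecidableEq X]

theorem Dl_Wp_subset (l : X × Bool) (y : X) :
    Dl (of y) (Wp [l]) ⊆ {1, (of y)⁻¹} := by
  intro a ha
  by_contra hne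
  simp only [mem_insert_iff, mem_singleton_iff, not_or] at hne
  refine ha ?_
  have hy : (of y : FreeGroup X) = mk [(y, true)] := rfl
  by_cases hr : IsReduced (a.toWord ++ [(y, true)])
  · have h1 : (a * of y).toWord = a.toWord ++ [(y, true)] := by
      rw [hy]
      conv_lhs => rw [← mk_toWord (x := a), ← mk_append]
      rw [toWord_mk_of hr]
    have h2 : a.toWord ≠ [] := fun h => hne.1 (toWord_eq_nil_iff.mp h)
    obtain ⟨m, L, hL⟩ := List.exists_cons_of_ne_nil h2
    show [l] <+: (a * of y).toWord ↔ [l] <+: a.toWord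
    rw [h1, hL]
    simp
  · obtain ⟨L', hL'⟩ := not_red_append isReduced_toWord hr
    have h0 : IsReduced (L' ++ [li (y, true)]) := by rw [← hL']; exact isReduced_toWord
    have h1 : IsReduced L' := red_left h0
    have hy' : (mk [li (y, true)] : FreeGroup X) = (of y)⁻¹ := by
      rw [hy, inv_mk]; rfl
    have h3 : a * of y = mk L' := by
      conv_lhs => rw [← mk_toWord (x := a), hL', mk_append, hy']
      rw [inv_mul_cancel_right]
    have h4 : L' ≠ [] := by
      rintro rfl
      refine hne.2 ?_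
      rw [← hy', ← mk_toWord (x := a), hL']
      rfl
    obtain ⟨m, L, hL⟩ := List.exists_cons_of_ne_nil h4
    show [l] <+: (a * of y).toWord ↔ [l] <+: a.toWord
    rw [h3, toWord_mk_of h1, hL', hL]
    simp

theorem ai_Wp (l : X × Bool) : AI (Wp [l]) := by
  refine ai_of_closure (FreeGroup.closure_range_of X) ?_
  rintro s ⟨y, rfl⟩
  exact (Set.toFinite {1, (of y)⁻¹}).subset (Dl_Wp_subset l y)

theorem cl_Wp (l : X × Bool) (y : X) :
    cl (Wp [l]) (of y) = (if l = (y, true) then 1 else 0) - (if l = (y, false) then 1 else 0) := by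
  unfold cl
  have hy : (of y : FreeGroup X) = mk [(y, true)] := rfl
  have hy' : (of y : FreeGroup X)⁻¹ = mk [(y, false)] := by rw [hy, inv_mk]; rfl
  have hne : (1 : FreeGroup X) ≠ (of y)⁻¹ := by
    intro h
    have : (of y : FreeGroup X) = 1 := by rw [← inv_inv (of y), ← h, inv_one]
    exact of_ne_one y this
  have hsub : Function.support (fun a => ind (Wp [l]) (a * of y) - ind (Wp [l]) a) ⊆
      (({1, (of y)⁻¹} : Finset (FreeGroup X)) : Set (FreeGroup X)) := by
    refine (supp_cl _ _).trans ((Dl_Wp_subset l y).trans ?_)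
    intro a ha
    simpa using ha
  rw [finsum_eq_sum_of_support_subset _ hsub, Finset.sum_pair hne, one_mul, inv_mul_cancel]
  have e1 : ind (Wp [l]) (1 : FreeGroup X) = 0 := Set.indicator_of_notMem (one_notMem_Wp l) _
  have e2 : ind (Wp [l]) (of y) = if l = (y, true) then 1 else 0 := by
    split_ifs with h
    · exact Set.indicator_of_mem (by rw [hy, mk_mem_Wp]; exact h) _
    · exact Set.indicator_of_notMem (by rw [hy, mk_mem_Wp]; exact h) _
  have e3 : ind (Wp [l]) (of y)⁻¹ = if l = (y, false) then 1 else 0 := by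
    split_ifs with h
    · exact Set.indicator_of_mem (by rw [hy', mk_mem_Wp]; exact h) _
    · exact Set.indicator_of_notMem (by rw [hy', mk_mem_Wp]; exact h) _
  rw [e1, e2, e3]
  ring

/-- far from the coboundary A is constant on prefix sets -/
theorem const_Wp {A : Set (FreeGroup X)} {p : List (X × Bool)}
    (hp : ∀ x, ∀ a ∈ Dl (of x) A, ¬ p <+: a.toWord) :
    ∀ L : List (X × Bool), IsReduced (p ++ L) → (mk (p ++ L) ∈ A ↔ mk p ∈ A) := by
  intro L
  induction L using List.reverseRecOn with
  | nil => intro _; rw [List.append_nil]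
  | append_singleton L m ih =>
    intro hr
    have hr' : IsReduced (p ++ L) := red_left (L' := [m]) (by simpa using hr)
    rw [← ih hr', ← List.append_assoc]
    obtain ⟨y, b⟩ := m
    have hy : (of y : FreeGroup X) = mk [(y, true)] := rfl
    rcases b with _ | _
    · have h1 : (mk (p ++ L ++ [(y, false)]) : FreeGroup X) * of y = mk (p ++ L) := by
        have : (mk [(y, false)] : FreeGroup X) = (of y)⁻¹ := by rw [hy, inv_mk]; rfl
        rw [mk_append, this, inv_mul_cancel_right]
      have h2 : (mk (p ++ L ++ [(y, false)]) : FreeGroup X) ∉ Dl (of y) A := by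
        intro h
        refine hp y _ h ?_
        rw [List.append_assoc, toWord_mk_of hr]
        exact List.prefix_append _ _
      simp only [Dl, mem_ofPred_eq, not_not, h1] at h2
      exact h2.symm
    · have h1 : (mk (p ++ L) : FreeGroup X) * of y = mk (p ++ L ++ [(y, true)]) := by
        rw [hy, ← mk_append]
      have h2 : (mk (p ++ L) : FreeGroup X) ∉ Dl (of y) A := by
        intro h
        refine hp y _ h ?_
        rw [toWord_mk_of hr']
        exact List.prefix_append _ _
      simp only [Dl, mem_ofPred_eq, not_not, h1] at h2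
      exact h2

theorem nst_far {A : Set (FreeGroup X)} {p : List (X × Bool)}
    (hp : ∀ x, ∀ a ∈ Dl (of x) A, ¬ p <+: a.toWord) : Nst A (Wp p) := by
  have key : ∀ a ∈ Wp p, (a ∈ A ↔ mk p ∈ A) := by
    rintro a ⟨L, hL⟩
    have h1 : IsReduced (p ++ L) := by rw [hL]; exact isReduced_toWord
    have h2 := const_Wp hp L h1
    rwa [hL, mk_toWord] at h2
  by_cases h : mk p ∈ A
  · exact Or.inr (Or.inl fun a ha => (key a ha).mpr h)
  · exact Or.inr (Or.inr (Or.inl fun a ha ha' => h ((key a ha').mp ha)))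

/-- FINITENESS -/
theorem fin_Cr [Finite X] {A : Set (FreeGroup X)} (hA : AI A) (l : X × Bool) :
    (Cr (FreeGroup X) (Wp [l]) A).Finite := by
  set P : Set (List (X × Bool)) := {p | ∃ x, ∃ a ∈ Dl (of x) A, p <+: a.toWord} with hP
  have hPfin : P.Finite := by
    have h1 : P ⊆ ⋃ x, ⋃ a ∈ Dl (of x) A, {p | p ∈ a.toWord.inits} := by
      rintro p ⟨x, a, ha, hp⟩
      simp only [mem_iUnion]
      exact ⟨x, a, ha, by rw [mem_ofPred_eq, List.mem_inits]; exact hp⟩
    refine Set.Finite.subset (Set.finite_iUnion fun x => ?_) h1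
    exact Set.Finite.biUnion (hA (of x)) fun a _ => List.finite_toSet _
  have hsub : Cr (FreeGroup X) (Wp [l]) A ⊆
      (fun g : FreeGroup X => g⁻¹.toWord) ⁻¹' P ∪
      (fun g : FreeGroup X => (g⁻¹ * mk [l]).toWord) ⁻¹' P := by
    intro g hg
    have h1 : ¬ Nst A (g⁻¹ • Wp [l]) := fun h => hg ((nst_smul' g).mpr h)
    rcases smul_Wp g⁻¹ l with h | h
    · right
      by_contra h2
      refine h1 ?_
      rw [h]
      exact nst_far fun x a ha hpre => h2 ⟨x, a, ha, hpre⟩
    · left
      by_contra h2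
      refine h1 ?_
      rw [h, nst_compl_right]
      exact nst_far fun x a ha hpre => h2 ⟨x, a, ha, hpre⟩
  refine Set.Finite.subset ((hPfin.preimage ?_).union (hPfin.preimage ?_)) hsub
  · intro a _ b _ h
    exact inv_injective (toWord_injective h)
  · intro a _ b _ h
    exact inv_injective (mul_right_cancel (toWord_injective h))

/-- FLOW THEOREM for free groups of finite rank. hs enumerates (up to translation and complement)
all almost invariant nested sets with the closed condition R whose class is outside W. -/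
theorem flow_free [Finite X] {M V : Type*} [AddCommGroup M] (hs : V → Set (FreeGroup X))
    (W : AddSubgroup (FreeGroup X → ℤ)) (R : Set (FreeGroup X) → Prop)
    (hR : ∀ C E, ¬ Nst C E → AI C → AI E → R C → R E → R (C ∩ E))
    (hRg : ∀ A (g : FreeGroup X), R A → R (g • A)) (hRc : ∀ A, R A → R Aᶜ)
    (l : X × Bool) (e : V) (he : hs e = Wp [l])
    (hAI : ∀ v, AI (hs v)) (hRv : ∀ v, R (hs v)) (hW : ∀ v, cl (hs v) ∉ W)
    (hsN : ∀ v, SN (FreeGroup X) (hs v))
    (hsur : ∀ A, AI A → R A → cl A ∉ W → SN (FreeGroup X) A →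
      ∃ v, ∃ g : FreeGroup X, hs v = g • A ∨ hs v = (g • A)ᶜ) :
    Acyc M (KF (FreeGroup X) hs) := by
  refine flow_relQ hs (fun A => cl A ∉ W) (fun A => AI A ∧ R A) ?_ ?_ ?_ ?_ ?_ ?_ ?_ ?_ e ?_ hW hsN ?_
  · rintro A B ⟨hA, -⟩ ⟨hB, -⟩ hd h
    by_contra hc
    push Not at hc
    refine h ?_
    rw [cl_union hA hB hd]
    exact W.add_mem hc.1 hc.2
  · rintro A ⟨hA, -⟩ h g hg
    have h0 : cl A ≠ 0 := fun h0 => h (by rw [h0]; exact W.zero_mem)
    obtain ⟨h1, h2⟩ := ne_of_cl h0
    constructor
    · exact fun h3 => hg (stab_trivial (FreeGroup.closure_range_of X) hA h1 h2 (Or.inl h3))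
    · exact fun h3 => hg (stab_trivial (FreeGroup.closure_range_of X) hA h1 h2 (Or.inr h3))
  · intro A g _ h
    rw [cl_smul]; exact h
  · intro A _ h h2
    rw [cl_compl] at h2
    exact h (by simpa using W.neg_mem h2)
  · rintro C E hcr ⟨h1, h2⟩ ⟨h3, h4⟩
    exact ⟨h1.inter h3, hR C E hcr h1 h3 h2 h4⟩
  · rintro A g ⟨h1, h2⟩
    exact ⟨h1.smul g, hRg A g h2⟩
  · rintro A ⟨h1, h2⟩
    exact ⟨h1.compl, hRc A h2⟩
  · exact fun v => ⟨hAI v, hRv v⟩
  · intro v
    rw [he]
    exact fin_Cr (hAI v) l
  · rintro A h1 ⟨h2, h3⟩ h4 -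
    exact hsur A h2 h3 h1 h4

/-- the closed condition: invariant under right multiplication by the marks -/
theorem closed_marks {G : Type*} [Group G] (Z : Set G) :
    (∀ C E : Set G, (∀ z ∈ Z, Dl z C = ∅) → (∀ z ∈ Z, Dl z E = ∅) → ∀ z ∈ Z, Dl z (C ∩ E) = ∅) ∧
    (∀ (A : Set G) (g : G), (∀ z ∈ Z, Dl z A = ∅) → ∀ z ∈ Z, Dl z (g • A) = ∅) ∧
    (∀ A : Set G, (∀ z ∈ Z, Dl z A = ∅) → ∀ z ∈ Z, Dl z Aᶜ = ∅) := by
  refine ⟨fun C E hC hE z hz => ?_, fun A g hA z hz => ?_, fun A hA z hz => ?_⟩
  · refine Set.subset_empty_iff.mp ((Dl_inter z C E).trans ?_)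
    rw [hC z hz, hE z hz]; simp
  · rw [Dl_smul, hA z hz, smul_set_empty]
  · rw [Dl_compl]; exact hA z hz

/-- letter half-spaces respect the marks among the other letters -/
theorem Dl_Wp_empty (l : X × Bool) (y : X) (h : l.1 ≠ y) : Dl (of y) (Wp [l]) = ∅ := by
  refine Set.eq_empty_iff_forall_notMem.mpr fun a ha => ?_
  have hy : (of y : FreeGroup X) = mk [(y, true)] := rfl
  have hy' : (of y : FreeGroup X)⁻¹ = mk [(y, false)] := by rw [hy, inv_mk]; rfl
  rcases Dl_Wp_subset l y ha with h1 | h1
  · refine ha ?_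
    rw [h1, one_mul]
    exact iff_of_false (fun h2 => h (by rw [hy, mk_mem_Wp] at h2; rw [h2])) (one_notMem_Wp l)
  · have h1' : a = (of y)⁻¹ := h1
    refine ha ?_
    rw [h1', inv_mul_cancel]
    exact iff_of_false (one_notMem_Wp l) (fun h2 => h (by rw [hy', mk_mem_Wp] at h2; rw [h2]))

end free

end Pool.Agent.TOR.H58
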