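import Pool.Agent.Helper79_TOR.Stmts
import Pool.Agent.Helper58_TOR.Fr2

/-! FL3 of the T2-STAB block -/

set_option autoImplicit false

namespace Pool.Agent.TOR.H58

open Pointwise Set

theorem tst_ai {G : Type} [Group G] (A : Set G) : TST.AI A ↔ AI A := by
  unfold TST.AI AI Dl
  refine forall_congr' fun s => ?_
  have : {y : G | ¬(y ∈ A ↔ y * s ∈ A)} = {a | ¬(a * s ∈ A ↔ a ∈ A)} := by
    ext y
    simp only [mem_ofPred_eq, not_iff_not]
    exact iff_comm
  rw [this]

theorem tst_ind {G : Type} [Group G] (A : Set G) (a : G) : TST.ind A a = ind A a := by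
  classical
  unfold TST.ind ind
  rw [Set.indicator_apply]

theorem tst_cl {G : Type} [Group G] (A : Set G) : TST.cl A = cl A := by
  funext x
  unfold TST.cl cl
  exact finsum_congr fun a => by rw [tst_ind, tst_ind]

theorem fl3 : TST.FL3 := by
  classical
  intro ι _ i
  refine ⟨Wp [(i, true)], (tst_ai _).mpr (ai_Wp _), sn_Wp _, ?_, ?_, ?_, ?_⟩
  · intro j hj y
    have h := Dl_Wp_empty (i, true) j (fun h => hj h.symm)
    have h2 : y ∉ Dl (FreeGroup.of j) (Wp [(i, true)]) := by rw [h]; exact notMem_empty _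
    simpa [Dl] using h2
  · intro j hj
    rw [tst_cl, cl_Wp]
    have h1 : ¬ ((i, true) = (j, true)) := fun h => hj (by simpa using h.symm)
    have h2 : ¬ ((i, true) = (j, false)) := fun h => by simp at h
    rw [if_neg h1, if_neg h2]; rfl
  · rw [tst_cl, cl_Wp, if_pos rfl, if_neg (by simp)]; rfl
  · intro A hA
    exact fin_Cr ((tst_ai A).mp hA) (i, true)

end Pool.Agent.TOR.H58
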