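import Pool.Agent.Helper58_TOR.Fr2

/-! Almost invariant subsets of a G-set, changes along the boundary lines, arcs; the flow theorem
for arcs at one gap relative to any closed family. No cyclic order is used. -/

set_option autoImplicit false

namespace Pool.Agent.TOR.H58

open Pointwise Set

section aio

variable {G Ω : Type*} [Group G] [MulAction G Ω]

/-- translates which put x and y on different sides of A -/
def Sp (G : Type*) {Ω : Type*} [Group G] [MulAction G Ω] (A : Set Ω) (x y : Ω) : Set G :=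
  {g | ¬ (g • x ∈ A ↔ g • y ∈ A)}

/-- almost invariant subsets of a G-set -/
def AIo (G : Type*) {Ω : Type*} [Group G] [MulAction G Ω] (A : Set Ω) : Prop :=
  ∀ x y : Ω, (Sp G A x y).Finite

theorem Sp_compl (A : Set Ω) (x y : Ω) : Sp G Aᶜ x y = Sp G A x y := by
  ext g
  simp only [Sp, mem_ofPred_eq, mem_compl_iff, not_iff_not]

theorem Sp_inter (A B : Set Ω) (x y : Ω) : Sp G (A ∩ B) x y ⊆ Sp G A x y ∪ Sp G B x y := by
  intro g hg
  by_contra h
  simp only [Sp, mem_union, mem_ofPred_eq, not_or, not_not] at h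
  refine hg ?_
  rw [mem_inter_iff, mem_inter_iff, h.1, h.2]

theorem Sp_smul (A : Set Ω) (h : G) (x y : Ω) : Sp G (h • A) x y = h • Sp G A x y := by
  ext g
  simp only [Sp, mem_smul_set_iff_inv_smul_mem, mem_ofPred_eq, smul_eq_mul, mul_smul]

theorem AIo.compl {A : Set Ω} (h : AIo G A) : AIo G Aᶜ := fun x y => by
  rw [Sp_compl]; exact h x y

theorem AIo.inter {A B : Set Ω} (h : AIo G A) (h' : AIo G B) : AIo G (A ∩ B) := fun x y =>
  ((h x y).union (h' x y)).subset (Sp_inter A B x y)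

theorem AIo.union {A B : Set Ω} (h : AIo G A) (h' : AIo G B) : AIo G (A ∪ B) := by
  rw [← compl_compl (A ∪ B), compl_union]
  exact (h.compl.inter h'.compl).compl

theorem AIo.smul {A : Set Ω} (h : AIo G A) (g : G) : AIo G (g • A) := fun x y => by
  rw [Sp_smul]
  exact (h x y).smul_set

/-- the trace of A on the orbit of o -/
def pb (G : Type*) {Ω : Type*} [Group G] [MulAction G Ω] (o : Ω) (A : Set Ω) : Set G :=
  {g | g • o ∈ A}

theorem pb_compl (o : Ω) (A : Set Ω) : pb G o Aᶜ = (pb G o A)ᶜ := rfl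

theorem pb_inter (o : Ω) (A B : Set Ω) : pb G o (A ∩ B) = pb G o A ∩ pb G o B := rfl

theorem pb_union (o : Ω) (A B : Set Ω) : pb G o (A ∪ B) = pb G o A ∪ pb G o B := rfl

theorem pb_smul (o : Ω) (h : G) (A : Set Ω) : pb G o (h • A) = h • pb G o A := by
  ext g
  simp only [pb, mem_smul_set_iff_inv_smul_mem, mem_ofPred_eq, smul_eq_mul, mul_smul]

theorem Dl_pb (o : Ω) (A : Set Ω) (s : G) : Dl s (pb G o A) = Sp G A (s • o) o := by
  ext g
  simp only [Dl, pb, Sp, mem_ofPred_eq, mul_smul]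

theorem AIo.pb {A : Set Ω} (h : AIo G A) (o : Ω) : AI (pb G o A) := fun s => by
  rw [Dl_pb]; exact h _ _

/-- the class -/
noncomputable def clo (G : Type*) {Ω : Type*} [Group G] [MulAction G Ω] (o : Ω) (A : Set Ω) :
    G → ℤ := cl (pb G o A)

theorem clo_union (o : Ω) {A B : Set Ω} (hA : AIo G A) (hB : AIo G B) (h : Disjoint A B) :
    clo G o (A ∪ B) = clo G o A + clo G o B := by
  unfold clo
  rw [pb_union]
  refine cl_union (hA.pb o) (hB.pb o) ?_
  rw [Set.disjoint_left] at h ⊢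
  exact fun g h1 h2 => h h1 h2

theorem clo_compl (o : Ω) (A : Set Ω) : clo G o Aᶜ = - clo G o A := by
  unfold clo
  rw [pb_compl, cl_compl]

theorem clo_smul (o : Ω) (g : G) (A : Set Ω) : clo G o (g • A) = clo G o A := by
  unfold clo
  rw [pb_smul, cl_smul]

theorem ne_of_clo {o : Ω} {A : Set Ω} (h : clo G o A ≠ 0) : A.Nonempty ∧ A ≠ Set.univ := by
  obtain ⟨⟨g, hg⟩, h2⟩ := ne_of_cl h
  refine ⟨⟨_, hg⟩, ?_⟩
  rintro rfl
  exact h2 rfl

/-- stabilisers are trivial -/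
theorem stab_trivial_o [IsMulTorsionFree G] {A : Set Ω} (hA : AIo G A) (h0 : A.Nonempty)
    (h1 : A ≠ Set.univ) {g : G} (hg : g • A = A ∨ g • A = Aᶜ) : g = 1 := by
  obtain ⟨x, hx⟩ := h0
  obtain ⟨y, hy⟩ := (Set.ne_univ_iff_exists_notMem A).mp h1
  have hpow : ∀ n : ℕ, g ^ n ∈ Sp G A x y := by
    intro n
    induction n with
    | zero =>
      intro h
      rw [pow_zero, one_smul, one_smul] at h
      exact hy (h.mp hx)
    | succ n ih =>
      intro h
      refine ih ?_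
      rw [pow_succ', mul_smul, mul_smul] at h
      rcases hg with hg | hg
      · have k : ∀ z, g • z ∈ A ↔ z ∈ A := fun z => by
          conv_lhs => rw [← hg]
          exact smul_mem_smul_set_iff
        rwa [k, k] at h
      · have k : ∀ z, g • z ∈ A ↔ z ∉ A := fun z => by
          have h2 : g • z ∈ Aᶜ ↔ z ∈ A := by
            rw [← hg]
            exact smul_mem_smul_set_iff
          rw [← h2, mem_compl_iff, not_not]
        rwa [k, k, not_iff_not] at h
  have hninj : ¬ Function.Injective (fun n : ℕ => g ^ n) := fun hinj =>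
    Set.infinite_of_injective_forall_mem hinj hpow (hA x y)
  by_contra hg1
  refine hninj fun m n hmn => ?_
  have h2 : g ^ m = g ^ n := hmn
  by_contra hne'
  rcases Nat.lt_or_gt_of_ne hne' with h3 | h3
  · have h4 : g ^ (n - m) = 1 := by
      rw [pow_sub _ h3.le, h2, mul_inv_cancel]
    exact hg1 ((pow_eq_one_iff_left (by omega)).mp h4)
  · have h4 : g ^ (m - n) = 1 := by
      rw [pow_sub _ h3.le, h2, mul_inv_cancel]
    exact hg1 ((pow_eq_one_iff_left (by omega)).mp h4)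

/-- the graph with edges g p, p in ps, is connected -/
def Conn (G : Type*) {Ω : Type*} [Group G] [MulAction G Ω] (ps : Set (Ω × Ω)) : Prop :=
  ∀ U : Set Ω, U.Nonempty → (∀ p ∈ ps, ∀ g : G, (g • p.1 ∈ U ↔ g • p.2 ∈ U)) → U = Set.univ

/-- FINITENESS OF CROSSINGS -/
theorem fin_Cro {ps : Set (Ω × Ω)} (hps : ps.Finite) (hc : Conn G ps) {A E : Set Ω}
    (hA : AIo G A) (hE : AIo G E) : (Cr G E A).Finite := by
  let D : Set Ω → Set Ω := fun B =>
    ⋃ p ∈ ps, ((fun g : G => g • p.1) '' Sp G B p.1 p.2 ∪ (fun g : G => g • p.2) '' Sp G B p.1 p.2)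
  have hD : ∀ B, AIo G B → (D B).Finite := fun B hB =>
    Set.Finite.biUnion hps fun p _ => ((hB _ _).image _).union ((hB _ _).image _)
  have hfin : ((⋃ x ∈ D E, ⋃ y ∈ D E, (Sp G A x y)⁻¹) ∪
      (⋃ x ∈ D A, ⋃ y ∈ D A, Sp G E x y)).Finite := by
    refine Set.Finite.union ?_ ?_
    · exact Set.Finite.biUnion (hD E hE) fun x _ => Set.Finite.biUnion (hD E hE) fun y _ =>
        (hA x y).inv
    · exact Set.Finite.biUnion (hD A hA) fun x _ => Set.Finite.biUnion (hD A hA) fun y _ => hE x y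
  refine hfin.subset ?_
  intro g hg
  by_contra hno
  simp only [mem_union, mem_iUnion, not_or, not_exists] at hno
  obtain ⟨hn1, hn2⟩ := hno
  refine hg ?_
  -- all points of D E are on one side of g A
  have a1 : ∃ A' : Set Ω, (A' = g • A ∨ A' = (g • A)ᶜ) ∧ ∀ x ∈ D E, x ∉ A' := by
    by_cases h : ∃ x ∈ D E, x ∈ g • A
    · obtain ⟨x, hx, hxA⟩ := h
      refine ⟨(g • A)ᶜ, Or.inr rfl, fun y hy hyA => ?_⟩
      refine hn1 x hx y hy ?_
      rw [Set.mem_inv]
      intro h2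
      rw [← mem_smul_set_iff_inv_smul_mem, ← mem_smul_set_iff_inv_smul_mem] at h2
      exact hyA (h2.mp hxA)
    · push Not at h
      exact ⟨g • A, Or.inl rfl, h⟩
  have a2 : ∃ E' : Set Ω, (E' = E ∨ E' = Eᶜ) ∧ ∀ x ∈ D A, g • x ∉ E' := by
    by_cases h : ∃ x ∈ D A, g • x ∈ E
    · obtain ⟨x, hx, hxA⟩ := h
      refine ⟨Eᶜ, Or.inr rfl, fun y hy hyA => ?_⟩
      exact hn2 x hx y hy fun h2 => hyA (h2.mp hxA)
    · push Not at h
      exact ⟨E, Or.inl rfl, h⟩
  obtain ⟨A', hA', hA'2⟩ := a1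
  obtain ⟨E', hE', hE'2⟩ := a2
  have key : Nst A' E' := by
    by_cases hU : (A' ∩ E').Nonempty
    · have hsepA : ∀ p ∈ ps, ∀ h : G, ¬ (h • p.1 ∈ A' ↔ h • p.2 ∈ A') →
          g⁻¹ • h • p.1 ∈ D A ∧ g⁻¹ • h • p.2 ∈ D A := by
        intro p hp h hh
        have h1 : g⁻¹ * h ∈ Sp G A p.1 p.2 := by
          intro h2
          refine hh ?_
          rw [mul_smul, mul_smul, ← mem_smul_set_iff_inv_smul_mem,
            ← mem_smul_set_iff_inv_smul_mem] at h2
          rcases hA' with rfl | rfl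
          · exact h2
          · rw [mem_compl_iff, mem_compl_iff, h2]
        refine ⟨mem_biUnion hp (Or.inl ⟨_, h1, ?_⟩), mem_biUnion hp (Or.inr ⟨_, h1, ?_⟩)⟩
        · exact mul_smul _ _ _
        · exact mul_smul _ _ _
      have hsepE : ∀ p ∈ ps, ∀ h : G, ¬ (h • p.1 ∈ E' ↔ h • p.2 ∈ E') →
          h • p.1 ∈ D E ∧ h • p.2 ∈ D E := by
        intro p hp h hh
        have h1 : h ∈ Sp G E p.1 p.2 := by
          intro h2
          refine hh ?_
          rcases hE' with rfl | rfl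
          · exact h2
          · rw [mem_compl_iff, mem_compl_iff, h2]
        exact ⟨mem_biUnion hp (Or.inl ⟨_, h1, rfl⟩), mem_biUnion hp (Or.inr ⟨_, h1, rfl⟩)⟩
      have hinv := hc (A' ∩ E') hU (by
        intro p hp h
        constructor
        · rintro ⟨k1, k2⟩
          refine ⟨?_, ?_⟩
          · by_contra k3
            have := (hsepA p hp h fun k4 => k3 (k4.mp k1)).1
            exact hE'2 _ this (by rw [smul_inv_smul]; exact k2)
          · by_contra k3
            exact hA'2 _ (hsepE p hp h fun k4 => k3 (k4.mp k2)).1 k1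
        · rintro ⟨k1, k2⟩
          refine ⟨?_, ?_⟩
          · by_contra k3
            have := (hsepA p hp h fun k4 => k3 (k4.mpr k1)).2
            exact hE'2 _ this (by rw [smul_inv_smul]; exact k2)
          · by_contra k3
            exact hA'2 _ (hsepE p hp h fun k4 => k3 (k4.mpr k2)).2 k1)
      refine Or.inl fun x _ => ?_
      have : x ∈ A' ∩ E' := by rw [hinv]; trivial
      exact this.2
    · refine Or.inr (Or.inr (Or.inl fun x hx hx' => hU ⟨x, hx, hx'⟩))
  rcases hA' with rfl | rfl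
  · rcases hE' with rfl | rfl
    · exact key
    · exact nst_compl_right.mp key
  · rcases hE' with rfl | rfl
    · exact nst_compl_left.mp key
    · exact nst_compl_left.mp (nst_compl_right.mp key)

end aio

section ch

variable {G Ω : Type*} [Group G] [MulAction G Ω]

/-- changes of A along the boundary lines -/
def Ch {Ω : Type*} (nx : Ω → Ω) (A : Set Ω) : Set Ω := {w | ¬ (nx w ∈ A ↔ w ∈ A)}

theorem Ch_compl (nx : Ω → Ω) (A : Set Ω) : Ch nx Aᶜ = Ch nx A := by
  ext w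
  simp only [Ch, mem_ofPred_eq, mem_compl_iff, not_iff_not]

theorem Ch_inter (nx : Ω → Ω) (A B : Set Ω) : Ch nx (A ∩ B) ⊆ Ch nx A ∪ Ch nx B := by
  intro w hw
  by_contra h
  simp only [Ch, mem_union, mem_ofPred_eq, not_or, not_not] at h
  refine hw ?_
  rw [mem_inter_iff, mem_inter_iff, h.1, h.2]

theorem Ch_smul {nx : Ω → Ω} (hnx : ∀ (g : G) w, nx (g • w) = g • nx w) (g : G) (A : Set Ω) :
    Ch nx (g • A) = g • Ch nx A := by
  ext w
  simp only [Ch, mem_smul_set_iff_inv_smul_mem, mem_ofPred_eq, hnx]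

theorem Ch_submod (nx : Ω → Ω) {C E : Set Ω} (hC : (Ch nx C).Finite) (hE : (Ch nx E).Finite) :
    (Ch nx (C ∩ E)).ncard + (Ch nx (C ∪ E)).ncard ≤ (Ch nx C).ncard + (Ch nx E).ncard := by
  have h1 : Ch nx (C ∩ E) ∪ Ch nx (C ∪ E) ⊆ Ch nx C ∪ Ch nx E := by
    intro w hw
    by_contra h
    simp only [Ch, mem_union, mem_ofPred_eq, not_or, not_not] at h
    rcases hw with hw | hw
    · refine hw ?_
      rw [mem_inter_iff, mem_inter_iff, h.1, h.2]
    · refine hw ?_
      rw [mem_union, mem_union, h.1, h.2]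
  have h2 : Ch nx (C ∩ E) ∩ Ch nx (C ∪ E) ⊆ Ch nx C ∩ Ch nx E := by
    rintro w ⟨h3, h4⟩
    have h3' : ¬ (nx w ∈ C ∩ E ↔ w ∈ C ∩ E) := h3
    have h4' : ¬ (nx w ∈ C ∪ E ↔ w ∈ C ∪ E) := h4
    rw [mem_inter_iff, mem_inter_iff] at h3'
    rw [mem_union, mem_union] at h4'
    show ¬ (nx w ∈ C ↔ w ∈ C) ∧ ¬ (nx w ∈ E ↔ w ∈ E)
    tauto
  have hu := (hC.union hE)
  have hf1 : (Ch nx (C ∩ E)).Finite := hu.subset (subset_union_left.trans h1)
  have hf2 : (Ch nx (C ∪ E)).Finite := hu.subset (subset_union_right.trans h1)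
  rw [← Set.ncard_union_add_ncard_inter _ _ hf1 hf2, ← Set.ncard_union_add_ncard_inter _ _ hC hE]
  exact Nat.add_le_add (Set.ncard_le_ncard h1 hu) (Set.ncard_le_ncard h2 (hC.subset inter_subset_left))

/-- ARCS (at the gaps in J): nested almost invariant sets with two changes -/
structure Arc (G : Type*) {Ω : Type*} [Group G] [MulAction G Ω] (nx : Ω → Ω) (J : Set Ω)
    (A : Set Ω) : Prop where
  ai : AIo G A
  sn : SN G A
  two : (Ch nx A).ncard = 2
  gap : Ch nx A ⊆ J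

theorem Arc.compl {nx : Ω → Ω} {J A : Set Ω} (h : Arc G nx J A) : Arc G nx J Aᶜ :=
  ⟨h.ai.compl, h.sn.compl, by rw [Ch_compl]; exact h.two, by rw [Ch_compl]; exact h.gap⟩

theorem Arc.smul {nx : Ω → Ω} (hnx : ∀ (g : G) w, nx (g • w) = g • nx w) {J A : Set Ω}
    (hJ : ∀ (g : G) w, g • w ∈ J ↔ w ∈ J) (h : Arc G nx J A) (g : G) : Arc G nx J (g • A) := by
  refine ⟨h.ai.smul g, h.sn.smul g, ?_, ?_⟩
  · rw [Ch_smul hnx]
    rw [← h.two]
    exact Set.ncard_image_of_injective _ (MulAction.injective g)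
  · rw [Ch_smul hnx]
    intro w hw
    rw [mem_smul_set_iff_inv_smul_mem] at hw
    exact (hJ g⁻¹ w).mp (h.gap hw)

theorem Arc.ne {nx : Ω → Ω} {J A : Set Ω} (h : Arc G nx J A) : A.Nonempty ∧ A ≠ Set.univ := by
  have h2 : (Ch nx A).Nonempty := by
    rw [← Set.ncard_pos (Set.finite_of_ncard_ne_zero (by rw [h.two]; norm_num)), h.two]
    norm_num
  obtain ⟨w, hw⟩ := h2
  constructor
  · rw [Set.nonempty_iff_ne_empty]
    rintro rfl
    exact hw (by simp)
  · rintro rfl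
    exact hw (by simp)

/-- a model: equivariant next map, connected graph, rigidity -/
structure Mdl (G : Type*) {Ω : Type*} [Group G] [MulAction G Ω] (nx : Ω → Ω) : Prop where
  eqv : ∀ (g : G) w, nx (g • w) = g • nx w
  conn : ∃ ps : Set (Ω × Ω), ps.Finite ∧ Conn G ps
  fin : ∀ A : Set Ω, AIo G A → (Ch nx A).Finite
  rig : ∀ A : Set Ω, AIo G A → A.Nonempty → A ≠ Set.univ → 2 ≤ (Ch nx A).ncard

theorem Mdl.fin_Cr {nx : Ω → Ω} (hM : Mdl G nx) {A E : Set Ω} (hA : AIo G A) (hE : AIo G E) :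
    (Cr G E A).Finite := by
  obtain ⟨ps, h1, h2⟩ := hM.conn
  exact fin_Cro h1 h2 hA hE

/-- the closed condition of the flow -/
def QA (G : Type*) {Ω : Type*} [Group G] [MulAction G Ω] (nx : Ω → Ω) (J : Set Ω)
    (R : Set Ω → Prop) (A : Set Ω) : Prop :=
  AIo G A ∧ (Ch nx A).ncard ≤ 2 ∧ Ch nx A ⊆ J ∧ R A

theorem Mdl.corner {nx : Ω → Ω} (hM : Mdl G nx) {J : Set Ω} {R : Set Ω → Prop}
    (hR : ∀ C E, ¬ Nst C E → AIo G C → AIo G E → R C → R E → R (C ∩ E)) (C E : Set Ω)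
    (hcr : ¬ Nst C E) (hC : QA G nx J R C) (hE : QA G nx J R E) : QA G nx J R (C ∩ E) := by
  refine ⟨hC.1.inter hE.1, ?_, ?_, hR C E hcr hC.1 hE.1 hC.2.2.2 hE.2.2.2⟩
  · have h1 := Ch_submod nx (hM.fin C hC.1) (hM.fin E hE.1)
    have h2 : 2 ≤ (Ch nx (C ∪ E)).ncard := by
      refine hM.rig _ (hC.1.union hE.1) ?_ ?_
      · by_contra h
        rw [Set.not_nonempty_iff_eq_empty] at h
        refine hcr (Or.inl fun x hx => ?_)
        have : x ∈ C ∪ E := Or.inl hx
        rw [h] at this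
        exact absurd this (Set.notMem_empty x)
      · intro h
        refine hcr (Or.inr (Or.inr (Or.inr fun x hx => ?_)))
        have : x ∈ C ∪ E := by rw [h]; trivial
        exact this.resolve_left hx
    have h3 := hC.2.1
    have h4 := hE.2.1
    omega
  · exact (Ch_inter nx C E).trans (union_subset hC.2.2.1 hE.2.2.1)

theorem Mdl.arc_of_QA {nx : Ω → Ω} (hM : Mdl G nx) {J : Set Ω} {R : Set Ω → Prop} {A : Set Ω}
    (h : QA G nx J R A) (h0 : A.Nonempty) (h1 : A ≠ Set.univ) (hs : SN G A) : Arc G nx J A :=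
  ⟨h.1, hs, le_antisymm h.2.1 (hM.rig A h.1 h0 h1), h.2.2.1⟩

theorem Arc.qa {nx : Ω → Ω} {J : Set Ω} {R : Set Ω → Prop} {A : Set Ω} (h : Arc G nx J A)
    (hR : R A) : QA G nx J R A := ⟨h.ai, h.two.le, h.gap, hR⟩

/-- FLOW THEOREM FOR ARCS. R is any closed condition (closed_nst: nested with a G-invariant
family), W a subgroup of the classes. -/
theorem flow_arcs [IsMulTorsionFree G] {nx : Ω → Ω} (hM : Mdl G nx) {M V : Type*}
    [AddCommGroup M] (o : Ω) (J : Set Ω) (hJ : ∀ (g : G) w, g • w ∈ J ↔ w ∈ J)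
    (R : Set Ω → Prop) (hR : ∀ C E, ¬ Nst C E → AIo G C → AIo G E → R C → R E → R (C ∩ E))
    (hRg : ∀ A (g : G), R A → R (g • A)) (hRc : ∀ A, R A → R Aᶜ)
    (W : AddSubgroup (G → ℤ)) (hs : V → Set Ω) (hsA : ∀ v, Arc G nx J (hs v))
    (hsR : ∀ v, R (hs v)) (hsW : ∀ v, clo G o (hs v) ∉ W)
    (hsur : ∀ A, Arc G nx J A → R A → clo G o A ∉ W →
      ∃ v, ∃ g : G, hs v = g • A ∨ hs v = (g • A)ᶜ) (e : V) :
    Acyc M (KF G hs) := by
  refine flow_relQ hs (fun A => clo G o A ∉ W) (QA G nx J R) ?_ ?_ ?_ ?_ (hM.corner hR) ?_ ?_ ?_ e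
    (fun v => hM.fin_Cr (hsA v).ai (hsA e).ai) hsW (fun v => (hsA v).sn) ?_
  · intro A B hA hB hd h
    by_contra hc
    push Not at hc
    refine h ?_
    rw [clo_union o hA.1 hB.1 hd]
    exact W.add_mem hc.1 hc.2
  · intro A hA h g hg
    have h0 : clo G o A ≠ 0 := fun h0 => h (by rw [h0]; exact W.zero_mem)
    obtain ⟨h1, h2⟩ := ne_of_clo h0
    exact ⟨fun h3 => hg (stab_trivial_o hA.1 h1 h2 (Or.inl h3)),
      fun h3 => hg (stab_trivial_o hA.1 h1 h2 (Or.inr h3))⟩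
  · intro A g _ h
    rw [clo_smul]; exact h
  · intro A _ h h2
    rw [clo_compl] at h2
    exact h (by simpa using W.neg_mem h2)
  · rintro A g ⟨h1, h2, h3, h4⟩
    refine ⟨h1.smul g, ?_, ?_, hRg A g h4⟩
    · rw [Ch_smul hM.eqv]
      exact (Set.ncard_image_of_injective _ (MulAction.injective g)).trans_le h2
    · rw [Ch_smul hM.eqv]
      intro w hw
      rw [mem_smul_set_iff_inv_smul_mem] at hw
      exact (hJ g⁻¹ w).mp (h3 hw)
  · rintro A ⟨h1, h2, h3, h4⟩
    exact ⟨h1.compl, by rw [Ch_compl]; exact h2, by rw [Ch_compl]; exact h3, hRc A h4⟩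
  · exact fun v => (hsA v).qa (hsR v)
  · intro A h1 h2 h3 _
    have h0 : clo G o A ≠ 0 := fun h0 => h1 (by rw [h0]; exact W.zero_mem)
    obtain ⟨h4, h5⟩ := ne_of_clo h0
    exact hsur A (hM.arc_of_QA h2 h4 h5 h3) h2.2.2.2 h1

end ch

end Pool.Agent.TOR.H58
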