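import Mathlib

/-! Ordered chains on lists: boundary, cone, maps, prism operator, supports. -/

set_option autoImplicit false

namespace Pool.Agent.TOR.H58

open Finsupp

variable {V M : Type*} [AddCommGroup M]

/-- put v in front of every list -/
noncomputable def cns (v : V) : (List V →₀ M) →+ (List V →₀ M) :=
  Finsupp.mapDomain.addMonoidHom (List.cons v)

theorem cns_single (v : V) (l : List V) (m : M) :
    cns v (single l m) = single (v :: l) m := by
  simp [cns, Finsupp.mapDomain.addMonoidHom, Finsupp.mapDomain_single]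

/-- boundary of one list; the empty list is the only one of degree -1 -/
noncomputable def bd1 : List V → M →+ (List V →₀ M)
  | [] => 0
  | v :: l => Finsupp.singleAddHom l - (cns v).comp (bd1 l)

/-- boundary -/
noncomputable def bd : (List V →₀ M) →+ (List V →₀ M) := Finsupp.liftAddHom bd1

theorem bd_single (l : List V) (m : M) : bd (single l m) = bd1 l m := by
  simp [bd]

theorem bd1_nil (m : M) : bd1 ([] : List V) m = 0 := rfl

theorem bd1_cons (v : V) (l : List V) (m : M) :
    bd1 (v :: l) m = single l m - cns v (bd1 l m) := rfl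

theorem bd_cns (v : V) (c : List V →₀ M) : bd (cns v c) = c - cns v (bd c) := by
  induction c using Finsupp.induction_linear with
  | zero => simp
  | add f g hf hg => rw [map_add, map_add, hf, hg, map_add, map_add]; abel
  | single l m => rw [cns_single, bd_single, bd1_cons, bd_single]

theorem bd_bd (c : List V →₀ M) : bd (bd c) = 0 := by
  induction c using Finsupp.induction_linear with
  | zero => simp
  | add f g hf hg => rw [map_add, map_add, hf, hg, add_zero]
  | single l m =>
    rw [bd_single]
    induction l with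
    | nil => rw [bd1_nil, map_zero]
    | cons v l ih =>
      rw [bd1_cons, map_sub, bd_cns, bd_single, ih, map_zero, sub_zero, sub_self]

/-- the map of chains induced by a map of vertices -/
noncomputable def mp (φ : V → V) : (List V →₀ M) →+ (List V →₀ M) :=
  Finsupp.mapDomain.addMonoidHom (List.map φ)

theorem mp_single (φ : V → V) (l : List V) (m : M) :
    mp φ (single l m) = single (l.map φ) m := by
  simp [mp, Finsupp.mapDomain.addMonoidHom, Finsupp.mapDomain_single]

theorem mp_cns (φ : V → V) (v : V) (c : List V →₀ M) :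
    mp φ (cns v c) = cns (φ v) (mp φ c) := by
  induction c using Finsupp.induction_linear with
  | zero => simp
  | add f g hf hg => rw [map_add, map_add, hf, hg, map_add, map_add]
  | single l m => rw [cns_single, mp_single, mp_single, cns_single, List.map_cons]

theorem mp_bd (φ : V → V) (c : List V →₀ M) : mp φ (bd c) = bd (mp φ c) := by
  induction c using Finsupp.induction_linear with
  | zero => simp
  | add f g hf hg => rw [map_add, map_add, hf, hg, map_add, map_add]
  | single l m =>
    rw [mp_single, bd_single, bd_single]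
    induction l with
    | nil => simp [bd1_nil]
    | cons v l ih =>
      rw [List.map_cons, bd1_cons, bd1_cons, map_sub, mp_cns, ih, mp_single]

/-- prism operator of one list -/
noncomputable def pr1 (φ : V → V) : List V → M →+ (List V →₀ M)
  | [] => 0
  | v :: l => Finsupp.singleAddHom (v :: φ v :: l.map φ) - (cns v).comp (pr1 φ l)

/-- prism operator -/
noncomputable def pr (φ : V → V) : (List V →₀ M) →+ (List V →₀ M) := Finsupp.liftAddHom (pr1 φ)

theorem pr_single (φ : V → V) (l : List V) (m : M) : pr φ (single l m) = pr1 φ l m := by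
  simp [pr]

theorem pr1_nil (φ : V → V) (m : M) : pr1 φ ([] : List V) m = 0 := rfl

theorem pr1_cons (φ : V → V) (v : V) (l : List V) (m : M) :
    pr1 φ (v :: l) m = single (v :: φ v :: l.map φ) m - cns v (pr1 φ l m) := rfl

theorem pr_cns (φ : V → V) (v : V) (c : List V →₀ M) :
    pr φ (cns v c) = cns v (cns (φ v) (mp φ c)) - cns v (pr φ c) := by
  induction c using Finsupp.induction_linear with
  | zero => simp
  | add f g hf hg =>
    simp only [map_add, hf, hg]
    abel
  | single l m => rw [cns_single, pr_single, pr1_cons, pr_single, mp_single, cns_single,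
      cns_single]

/-- homotopy formula -/
theorem bd_pr (φ : V → V) (c : List V →₀ M) : bd (pr φ c) + pr φ (bd c) = mp φ c - c := by
  induction c using Finsupp.induction_linear with
  | zero => simp
  | add f g hf hg =>
    simp only [map_add]
    rw [show bd (pr φ f) + bd (pr φ g) + (pr φ (bd f) + pr φ (bd g)) =
      (bd (pr φ f) + pr φ (bd f)) + (bd (pr φ g) + pr φ (bd g)) by abel, hf, hg]
    abel
  | single l m =>
    induction l with
    | nil => rw [pr_single, pr1_nil, bd_single, bd1_nil, mp_single, List.map_nil]; simp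
    | cons v l ih =>
      have h1 : bd (pr φ (single l m)) = mp φ (single l m) - single l m
          - pr φ (bd (single l m)) := by
        rw [← ih]; abel
      rw [← cns_single, pr_cns, bd_cns, map_sub, map_sub, pr_cns, mp_cns]
      simp only [bd_cns, map_sub, mp_bd, h1]
      abel

/-- chains supported in Q -/
def Sup (M : Type*) [AddCommGroup M] (Q : List V → Prop) : AddSubgroup (List V →₀ M) where
  carrier := {c | ∀ l, c l ≠ 0 → Q l}
  zero_mem' := fun l h => absurd rfl h
  add_mem' := by
    intro a b ha hb l h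
    by_cases h1 : a l = 0
    · refine hb l fun h2 => h ?_
      rw [Finsupp.add_apply, h1, h2, add_zero]
    · exact ha l h1
  neg_mem' := by
    intro a ha l h
    refine ha l fun h2 => h ?_
    rw [Finsupp.neg_apply, h2, neg_zero]

theorem mem_Sup {Q : List V → Prop} {c : List V →₀ M} :
    c ∈ Sup M Q ↔ ∀ l, c l ≠ 0 → Q l := Iff.rfl

theorem single_mem_Sup {Q : List V → Prop} {l : List V} (h : Q l) (m : M) :
    single l m ∈ Sup M Q := by
  intro l' hl'
  by_cases e : l = l'
  · exact e ▸ h
  · exact absurd (Finsupp.single_eq_of_ne (Ne.symm e)) hl'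

theorem Sup_mono {Q Q' : List V → Prop} (h : ∀ l, Q l → Q' l) {c : List V →₀ M}
    (hc : c ∈ Sup M Q) : c ∈ Sup M Q' := fun l hl => h l (hc l hl)

theorem lift_mem_Sup {Q Q' : List V → Prop} (F : List V → M →+ (List V →₀ M))
    (hF : ∀ l, Q l → ∀ m, F l m ∈ Sup M Q') {c : List V →₀ M} (hc : c ∈ Sup M Q) :
    Finsupp.liftAddHom F c ∈ Sup M Q' := by
  rw [Finsupp.liftAddHom_apply]
  refine AddSubgroup.sum_mem _ fun l hl => ?_
  exact hF l (hc l (Finsupp.mem_support_iff.mp hl)) _

theorem map_mem_Sup {Q Q' : List V → Prop} (T : (List V →₀ M) →+ (List V →₀ M))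
    (hT : ∀ l, Q l → ∀ m, T (single l m) ∈ Sup M Q') {c : List V →₀ M} (hc : c ∈ Sup M Q) :
    T c ∈ Sup M Q' := by
  rw [← Finsupp.sum_single c, Finsupp.sum, map_sum]
  refine AddSubgroup.sum_mem _ fun l hl => ?_
  exact hT l (hc l (Finsupp.mem_support_iff.mp hl)) _

theorem cns_mem_Sup {Q Q' : List V → Prop} {v : V} (h : ∀ l, Q l → Q' (v :: l))
    {c : List V →₀ M} (hc : c ∈ Sup M Q) : cns v c ∈ Sup M Q' :=
  map_mem_Sup _ (fun l hl m => by rw [cns_single]; exact single_mem_Sup (h l hl) m) hc

theorem mp_mem_Sup {Q Q' : List V → Prop} {φ : V → V} (h : ∀ l, Q l → Q' (l.map φ))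
    {c : List V →₀ M} (hc : c ∈ Sup M Q) : mp φ c ∈ Sup M Q' :=
  map_mem_Sup _ (fun l hl m => by rw [mp_single]; exact single_mem_Sup (h l hl) m) hc

theorem bd1_mem (l : List V) (m : M) :
    bd1 l m ∈ Sup M (fun l' => (∀ a ∈ l', a ∈ l) ∧ l'.length + 1 = l.length) := by
  induction l with
  | nil => rw [bd1_nil]; exact AddSubgroup.zero_mem _
  | cons v l ih =>
    rw [bd1_cons]
    refine AddSubgroup.sub_mem _ (single_mem_Sup ⟨fun a ha => List.mem_cons_of_mem _ ha, rfl⟩ m) ?_
    refine cns_mem_Sup (fun l' hl' => ⟨fun a ha => ?_, ?_⟩) ih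
    · rcases List.mem_cons.mp ha with h | h
      · exact h ▸ List.mem_cons_self
      · exact List.mem_cons_of_mem _ (hl'.1 a h)
    · simp only [List.length_cons]
      omega

theorem pr1_mem (φ : V → V) (l : List V) (m : M) :
    pr1 φ l m ∈ Sup M (fun l' => (∀ a ∈ l', a ∈ l ∨ ∃ b ∈ l, a = φ b) ∧
      l'.length = l.length + 1) := by
  induction l with
  | nil => rw [pr1_nil]; exact AddSubgroup.zero_mem _
  | cons v l ih =>
    rw [pr1_cons]
    have key : (∀ a ∈ v :: φ v :: l.map φ, a ∈ v :: l ∨ ∃ b ∈ v :: l, a = φ b) ∧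
        (v :: φ v :: l.map φ).length = (v :: l).length + 1 := by
      refine ⟨fun a ha => ?_, by simp⟩
      rcases List.mem_cons.mp ha with h | h
      · exact Or.inl (h ▸ List.mem_cons_self)
      · rcases List.mem_cons.mp h with h | h
        · exact Or.inr ⟨v, List.mem_cons_self, h⟩
        · obtain ⟨b, hb, rfl⟩ := List.mem_map.mp h
          exact Or.inr ⟨b, List.mem_cons_of_mem _ hb, rfl⟩
    refine AddSubgroup.sub_mem _ (single_mem_Sup key m) ?_
    · refine cns_mem_Sup (fun l' hl' => ⟨fun a ha => ?_, ?_⟩) ih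
      · rcases List.mem_cons.mp ha with h | h
        · exact Or.inl (h ▸ List.mem_cons_self)
        · rcases hl'.1 a h with h1 | ⟨b, hb, e⟩
          · exact Or.inl (List.mem_cons_of_mem _ h1)
          · exact Or.inr ⟨b, List.mem_cons_of_mem _ hb, e⟩
      · simp only [List.length_cons]
        omega

theorem bd_mem_Sup {Q Q' : List V → Prop}
    (h : ∀ l, Q l → ∀ l' : List V, (∀ a ∈ l', a ∈ l) → l'.length + 1 = l.length → Q' l')
    {c : List V →₀ M} (hc : c ∈ Sup M Q) : bd c ∈ Sup M Q' :=
  map_mem_Sup _ (fun l hl m => by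
    rw [bd_single]; exact Sup_mono (fun l' hl' => h l hl l' hl'.1 hl'.2) (bd1_mem l m)) hc

theorem pr_mem_Sup {Q Q' : List V → Prop} {φ : V → V}
    (h : ∀ l, Q l → ∀ l' : List V, (∀ a ∈ l', a ∈ l ∨ ∃ b ∈ l, a = φ b) →
      l'.length = l.length + 1 → Q' l')
    {c : List V →₀ M} (hc : c ∈ Sup M Q) : pr φ c ∈ Sup M Q' :=
  map_mem_Sup _ (fun l hl m => by
    rw [pr_single]; exact Sup_mono (fun l' hl' => h l hl l' hl'.1 hl'.2) (pr1_mem φ l m)) hc

end Pool.Agent.TOR.H58
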