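import Pool.Agent.Helper58_TOR.Fl2

/-! Free groups: half-spaces given by a letter, almost invariant sets, finiteness of crossings. -/

set_option autoImplicit false
set_option linter.unusedVariables false
set_option linter.unusedSectionVars false

namespace Pool.Agent.TOR.H58

open Pointwise Set FreeGroup

section words

variable {X : Type*} [DecidableEq X]

/-- the elements whose reduced word has the prefix p -/
def Wp (p : List (X × Bool)) : Set (FreeGroup X) := {a | p <+: a.toWord}

/-- inverse letter -/
def li (l : X × Bool) : X × Bool := (l.1, !l.2)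

theorem li_li (l : X × Bool) : li (li l) = l := by simp [li]

theorem red_left {L L' : List (X × Bool)} (h : IsReduced (L ++ L')) : IsReduced L :=
  (List.isChain_append.mp h).1

theorem red_right {L L' : List (X × Bool)} (h : IsReduced (L ++ L')) : IsReduced L' :=
  (List.isChain_append.mp h).2.1

theorem toWord_mk_of {L : List (X × Bool)} (h : IsReduced L) : (mk L).toWord = L := by
  rw [toWord_mk, h.reduce_eq]

theorem mk_append (L L' : List (X × Bool)) : mk (L ++ L') = mk L * mk L' := by
  rw [mul_mk]

theorem smul_Wp_red (h : FreeGroup X) (l : X × Bool) (hr : IsReduced (h.toWord ++ [l])) :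
    h • Wp [l] = Wp (h.toWord ++ [l]) := by
  ext a
  rw [mem_smul_set_iff_inv_smul_mem, smul_eq_mul]
  constructor
  · rintro ⟨L, hL⟩
    have h1 : IsReduced ([l] ++ L) := by rw [hL]; exact isReduced_toWord
    have h2 : IsReduced (h.toWord ++ [l] ++ L) := hr.append_overlap h1 (by simp)
    have h3 : a = mk (h.toWord ++ [l] ++ L) := by
      rw [List.append_assoc, mk_append, hL, mk_toWord, mk_toWord, mul_inv_cancel_left]
    refine ⟨L, ?_⟩
    rw [h3, toWord_mk_of h2]
  · rintro ⟨L, hL⟩
    have h1 : IsReduced (h.toWord ++ [l] ++ L) := by rw [hL]; exact isReduced_toWord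
    have h2 : IsReduced ([l] ++ L) := red_right (L := h.toWord) (by simpa using h1)
    have h3 : h⁻¹ * a = mk ([l] ++ L) := by
      rw [inv_mul_eq_iff_eq_mul]
      conv_rhs => rw [← mk_toWord (x := h), ← mk_append, ← List.append_assoc, hL]
      rw [mk_toWord]
    rw [h3]
    exact ⟨L, (toWord_mk_of h2).symm⟩

theorem not_red_append {L : List (X × Bool)} {l : X × Bool} (hL : IsReduced L)
    (h : ¬ IsReduced (L ++ [l])) : ∃ L', L = L' ++ [li l] := by
  rcases List.eq_nil_or_concat L with h1 | ⟨L', m, h1⟩
  · rw [h1] at h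
    exact absurd IsReduced.singleton h
  · rw [List.concat_eq_append] at h1
    refine ⟨L', ?_⟩
    suffices hm' : m = li l by rw [h1, hm']
    by_contra hm
    refine h ?_
    rw [h1]
    have h2 : IsReduced ([m] ++ [l]) := by
      show IsReduced [m, l]
      rw [isReduced_cons_cons]
      refine ⟨fun e => ?_, IsReduced.singleton⟩
      by_contra h3
      refine hm (Prod.ext e ?_)
      show m.2 = !l.2
      rcases hm2 : m.2 <;> rcases hl2 : l.2 <;> simp_all
    exact (h1 ▸ hL).append_overlap h2 (by simp)

theorem mk_mul_mem_Wp (l : X × Bool) (a : FreeGroup X) :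
    mk [l] * a ∈ Wp [l] ↔ a ∉ Wp [li l] := by
  constructor
  · rintro ⟨L, hL⟩ ⟨L', hL'⟩
    have h1 : mk [l] * a = mk L' := by
      conv_lhs => rw [← mk_toWord (x := a), ← hL']
      rw [mk_append, ← mul_assoc]
      have : mk [l] * mk [li l] = 1 := by
        rw [← mk_append]
        have : Red.Step ([l] ++ [li l]) [] := by
          have h := Red.Step.not (L₁ := []) (L₂ := []) (x := l.1) (b := l.2)
          simpa [li] using h
        rw [one_eq_mk]
        exact Quot.sound this
      rw [this, one_mul]
    have h2 : IsReduced ([li l] ++ L') := by rw [hL']; exact isReduced_toWord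
    have h3 : IsReduced L' := red_right (L := [li l]) h2
    rw [h1, toWord_mk_of h3] at hL
    rw [← hL] at h2
    have h4 : IsReduced (li l :: l :: L) := h2
    rw [isReduced_cons_cons] at h4
    have := h4.1 rfl
    simp [li] at this
  · intro h
    have h1 : IsReduced ([l] ++ a.toWord) := by
      rcases h2 : a.toWord with _ | ⟨m, L⟩
      · exact IsReduced.singleton
      · show IsReduced (l :: m :: L)
        rw [isReduced_cons_cons]
        refine ⟨fun e => ?_, h2 ▸ isReduced_toWord⟩
        by_contra h3
        refine h ⟨L, ?_⟩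
        rw [h2]
        show li l :: L = m :: L
        congr 1
        refine Prod.ext e ?_
        show (!l.2) = m.2
        rcases hm2 : m.2 <;> rcases hl2 : l.2 <;> simp_all
    refine ⟨a.toWord, ?_⟩
    conv_rhs => rw [← mk_toWord (x := a), ← mk_append, toWord_mk_of h1]

theorem smul_Wp_not (h : FreeGroup X) (l : X × Bool) (hr : ¬ IsReduced (h.toWord ++ [l])) :
    h • Wp [l] = (Wp h.toWord)ᶜ := by
  obtain ⟨L', hL'⟩ := not_red_append isReduced_toWord hr
  have h0 : IsReduced (L' ++ [li l]) := by rw [← hL']; exact isReduced_toWord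
  have h1 : IsReduced L' := red_left h0
  have h2 : (mk L').toWord = L' := toWord_mk_of h1
  have h3 : h = mk L' * mk [li l] := by rw [← mk_append, ← hL', mk_toWord]
  have h4 : mk [li l] • Wp [l] = (Wp [li l])ᶜ := by
    ext a
    rw [mem_smul_set_iff_inv_smul_mem, smul_eq_mul]
    have h5 : (mk [li l])⁻¹ = mk [l] := by
      rw [inv_mk]
      simp [invRev, li]
    rw [h5, mk_mul_mem_Wp]
    rfl
  rw [hL', h3, mul_smul, h4, smul_set_compl, smul_Wp_red _ _ (by rw [h2]; exact h0), h2]

/-- translates of letter half-spaces are prefix half-spaces -/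
theorem smul_Wp (h : FreeGroup X) (l : X × Bool) :
    h • Wp [l] = Wp (h * mk [l]).toWord ∨ h • Wp [l] = (Wp h.toWord)ᶜ := by
  by_cases hr : IsReduced (h.toWord ++ [l])
  · left
    rw [smul_Wp_red h l hr]
    congr 1
    conv_rhs => rw [← mk_toWord (x := h), ← mk_append, toWord_mk_of hr]
  · exact Or.inr (smul_Wp_not h l hr)

theorem nst_Wp (p q : List (X × Bool)) : Nst (Wp p) (Wp q) := by
  by_cases h1 : p <+: q
  · exact Or.inr (Or.inl fun a ha => h1.trans ha)
  by_cases h2 : q <+: p
  · exact Or.inl fun a ha => h2.trans ha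
  refine Or.inr (Or.inr (Or.inl fun a ha ha' => ?_))
  rcases List.prefix_or_prefix_of_prefix ha ha' with h | h
  · exact h1 h
  · exact h2 h

theorem sn_Wp (l : X × Bool) : SN (FreeGroup X) (Wp [l]) := by
  intro g
  rcases smul_Wp g l with h | h
  · rw [h]; exact nst_Wp _ _
  · rw [h, nst_compl_left]; exact nst_Wp _ _

theorem one_notMem_Wp (l : X × Bool) : (1 : FreeGroup X) ∉ Wp [l] := by
  rintro ⟨L, hL⟩
  simp at hL

theorem mk_mem_Wp (l m : X × Bool) : mk [m] ∈ Wp [l] ↔ l = m := by
  have h : (mk [m]).toWord = [m] := toWord_mk_of IsReduced.singleton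
  constructor
  · rintro ⟨L, hL⟩
    rw [h] at hL
    simp at hL
    exact hL.1
  · rintro rfl
    exact ⟨[], by rw [h]; rfl⟩

end words

end Pool.Agent.TOR.H58
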