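import Pool.Agent.Helper58_TOR.Flow

/-! Comparison of all lists with the lists that start with (a part of) a fixed list; relative
acyclicity for the simplices with a given core. -/

set_option autoImplicit false

namespace Pool.Agent.TOR.H58

open Finsupp

variable {V M : Type*} [AddCommGroup M]

/-- first a part of gl in the given order, then letters outside gl -/
def Nice (gl l : List V) : Prop :=
  ∃ g t : List V, l = g ++ t ∧ g.Sublist gl ∧ ∀ a ∈ t, a ∉ gl

open Classical in
/-- cone which does nothing to lists starting with g -/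
noncomputable def kap (g : V) : (List V →₀ M) →+ (List V →₀ M) :=
  Finsupp.liftAddHom fun l => if l.head? = some g then 0 else Finsupp.singleAddHom (g :: l)

theorem kap_head (g : V) (l : List V) (m : M) : kap g (single (g :: l) m) = 0 := by
  simp [kap]

theorem kap_not (g : V) {l : List V} (h : l.head? ≠ some g) (m : M) :
    kap g (single l m) = single (g :: l) m := by
  simp [kap, h]

theorem kap_cns (g : V) (c : List V →₀ M) : kap g (cns g c) = 0 := by
  induction c using Finsupp.induction_linear with
  | zero => simp
  | add f g hf hg => rw [map_add, map_add, hf, hg, add_zero]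
  | single l m => rw [cns_single, kap_head]

theorem kap_eq_cns (g : V) {c : List V →₀ M} (hc : c ∈ Sup M (fun l => g ∉ l)) :
    kap g c = cns g c := by
  rw [← Finsupp.sum_single c, Finsupp.sum, map_sum, map_sum]
  refine Finset.sum_congr rfl fun l hl => ?_
  have h := hc l (Finsupp.mem_support_iff.mp hl)
  rw [cns_single, kap_not]
  intro h2
  exact h (List.mem_of_mem_head? h2)

theorem bd_ind {P : List V → Prop} (T : (List V →₀ M) →+ (List V →₀ M))
    (h : ∀ l, P l → ∀ m, bd (T (single l m)) = single l m - T (bd1 l m)) {c : List V →₀ M}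
    (hc : c ∈ Sup M P) : bd (T c) = c - T (bd c) := by
  conv_lhs => rw [← Finsupp.sum_single c]
  conv_rhs => rw [← Finsupp.sum_single c]
  rw [Finsupp.sum, map_sum, map_sum, map_sum, map_sum, ← Finset.sum_sub_distrib]
  refine Finset.sum_congr rfl fun l hl => ?_
  rw [h l (hc l (Finsupp.mem_support_iff.mp hl)), bd_single]

/-- the nice lists with letters in l form an acyclic complex -/
theorem exists_kap (gl : List V) (hgl : gl.Nodup) (l : List V) (hl : l ≠ []) :
    ∃ κ : (List V →₀ M) →+ (List V →₀ M),
      (∀ l', Nice gl l' → (∀ a ∈ l', a ∈ l) → ∀ m,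
        κ (single l' m) ∈ Sup M (fun l'' => Nice gl l'' ∧ (∀ a ∈ l'', a ∈ l) ∧
          l''.length = l'.length + 1)) ∧
      ∀ l', Nice gl l' → (∀ a ∈ l', a ∈ l) → ∀ m,
        bd (κ (single l' m)) = single l' m - κ (bd1 l' m) := by
  classical
  obtain ⟨v, l1, rfl⟩ := List.exists_cons_of_ne_nil hl
  set L := v :: l1 with hL
  rcases hfl : gl.filter (fun a => decide (a ∈ L)) with _ | ⟨g, fr⟩
  · have hno : ∀ a ∈ gl, a ∉ L := by
      intro a ha haL
      have : a ∈ gl.filter (fun a => decide (a ∈ L)) := List.mem_filter.mpr ⟨ha, by simpa using haL⟩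
      rw [hfl] at this
      exact List.not_mem_nil this
    have hvL : v ∈ L := List.mem_cons_self
    refine ⟨cns v, fun l' hn hl' m => ?_, fun l' hn hl' m => ?_⟩
    · rw [cns_single]
      refine single_mem_Sup ⟨?_, ?_, rfl⟩ m
      · obtain ⟨g, t, rfl, h1, h2⟩ := hn
        have hg : g = [] := by
          rw [List.eq_nil_iff_forall_not_mem]
          intro a ha
          exact hno a (h1.subset ha) (hl' a (List.mem_append_left _ ha))
        subst hg
        refine ⟨[], v :: t, by simp, List.nil_sublist _, ?_⟩
        intro a ha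
        rcases List.mem_cons.mp ha with h | h
        · rw [h]; exact fun h3 => hno v h3 hvL
        · exact h2 a h
      · intro a ha
        rcases List.mem_cons.mp ha with h | h
        · rw [h]; exact hvL
        · exact hl' a h
    · rw [cns_single, bd_single, bd1_cons]
  · have hnd : (g :: fr).Nodup := by rw [← hfl]; exact hgl.filter _
    have hgg : g ∈ gl ∧ g ∈ L := by
      have : g ∈ gl.filter (fun a => decide (a ∈ L)) := by rw [hfl]; exact List.mem_cons_self
      have h2 := List.mem_filter.mp this
      exact ⟨h2.1, by simpa using h2.2⟩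
    have hfs : (g :: fr).Sublist gl := by rw [← hfl]; exact List.filter_sublist
    have hsub : ∀ g' : List V, g'.Sublist gl → (∀ a ∈ g', a ∈ L) → g'.Sublist (g :: fr) := by
      intro g' h1 h2
      rw [← hfl]
      have h3 : g'.filter (fun a => decide (a ∈ L)) = g' := by
        rw [List.filter_eq_self]
        intro a ha
        simpa using h2 a ha
      rw [← h3]
      exact h1.filter _
    -- a nice list containing g starts with g
    have hst : ∀ l' : List V, Nice gl l' → (∀ a ∈ l', a ∈ L) → g ∈ l' → l'.head? = some g := by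
      rintro l' ⟨g', t, rfl, h1, h2⟩ h3 h4
      have h5 : g ∈ g' := (List.mem_append.mp h4).resolve_right fun h => h2 g h hgg.1
      have h6 := hsub g' h1 fun a ha => h3 a (List.mem_append_left _ ha)
      rcases List.sublist_cons_iff.mp h6 with h7 | ⟨r, rfl, -⟩
      · exact absurd (h7.subset h5) (List.nodup_cons.mp hnd).1
      · rfl
    refine ⟨kap g, fun l' hn hl' m => ?_, fun l' hn hl' m => ?_⟩
    · by_cases hh : l'.head? = some g
      · obtain ⟨l'', rfl⟩ : ∃ l'', l' = g :: l'' := by
          rcases l' with _ | ⟨a, l''⟩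
          · simp at hh
          · exact ⟨l'', by simp at hh; rw [hh]⟩
        rw [kap_head]
        exact AddSubgroup.zero_mem _
      · rw [kap_not _ hh]
        refine single_mem_Sup ⟨?_, ?_, rfl⟩ m
        · obtain ⟨g', t, rfl, h1, h2⟩ := hn
          have h6 := hsub g' h1 fun a ha => hl' a (List.mem_append_left _ ha)
          rcases List.sublist_cons_iff.mp h6 with h7 | ⟨r, rfl, -⟩
          · exact ⟨g :: g', t, rfl, (h7.cons_cons g).trans hfs, h2⟩
          · exact absurd rfl hh
        · intro a ha
          rcases List.mem_cons.mp ha with h | h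
          · rw [h]; exact hgg.2
          · exact hl' a h
    · by_cases hh : l'.head? = some g
      · obtain ⟨l'', rfl⟩ : ∃ l'', l' = g :: l'' := by
          rcases l' with _ | ⟨a, l''⟩
          · simp at hh
          · exact ⟨l'', by simp at hh; rw [hh]⟩
        have hg2 : g ∉ l'' := by
          obtain ⟨g', t, h0, h1, h2⟩ := hn
          rcases g' with _ | ⟨x, g'⟩
          · rw [List.nil_append] at h0
            exact absurd hgg.1 (h2 g (by rw [← h0]; exact List.mem_cons_self))
          · rw [List.cons_append] at h0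
            obtain ⟨rfl, rfl⟩ := List.cons_eq_cons.mp h0
            intro h3
            rcases List.mem_append.mp h3 with h4 | h4
            · exact (List.nodup_cons.mp (hgl.sublist h1)).1 h4
            · exact h2 _ h4 hgg.1
        rw [kap_head, map_zero, bd1_cons, map_sub, kap_cns, sub_zero, kap_not, sub_self]
        intro h3
        exact hg2 (List.mem_of_mem_head? h3)
      · have hg2 : g ∉ l' := fun h => hh (hst l' hn hl' h)
        rw [kap_not _ hh, bd_single, bd1_cons, kap_eq_cns]
        refine Sup_mono (fun l'' h => ?_) (bd1_mem l' m)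
        exact fun h3 => hg2 (h.1 g h3)

theorem nice_bd (gl : List V) (l : List V) (hn : Nice gl l) (m : M) :
    bd1 l m ∈ Sup M (fun l' => Nice gl l' ∧ (∀ a ∈ l', a ∈ l) ∧ l'.length + 1 = l.length) := by
  have key : ∀ l : List V, ∀ m : M, bd1 l m ∈ Sup M (fun l' => l'.Sublist l ∧
      l'.length + 1 = l.length) := by
    intro l m
    induction l with
    | nil => rw [bd1_nil]; exact AddSubgroup.zero_mem _
    | cons v l ih =>
      rw [bd1_cons]
      refine AddSubgroup.sub_mem _ (single_mem_Sup ⟨List.sublist_cons_self _ _, rfl⟩ m) ?_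
      refine cns_mem_Sup (fun l' hl' => ⟨hl'.1.cons_cons v, ?_⟩) ih
      simp only [List.length_cons]
      have := hl'.2
      omega
  refine Sup_mono (fun l' hl' => ⟨?_, fun a ha => hl'.1.subset ha, hl'.2⟩) (key l m)
  obtain ⟨g, t, rfl, h1, h2⟩ := hn
  obtain ⟨g', t', rfl, h3, h4⟩ := List.sublist_append_iff.mp hl'.1
  exact ⟨g', t', rfl, h3.trans h1, fun a ha => h2 a (h4.subset ha)⟩

/-- COMPARISON: a chain map rho to nice lists and a homotopy h between rho and the identity -/
theorem exists_rho (gl : List V) (hgl : gl.Nodup) (n : ℕ) :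
    ∃ ρ h : (List V →₀ M) →+ (List V →₀ M), ∀ l : List V, l.length < n → ∀ m,
      bd (ρ (single l m)) = ρ (bd1 l m) ∧
      ρ (single l m) ∈ Sup M (fun l' => Nice gl l' ∧ (∀ a ∈ l', a ∈ l) ∧
        l'.length = l.length) ∧
      bd (h (single l m)) + h (bd1 l m) = single l m - ρ (single l m) ∧
      h (single l m) ∈ Sup M (fun l' => (∀ a ∈ l', a ∈ l) ∧ l'.length = l.length + 1) := by
  classical
  induction n with
  | zero => exact ⟨0, 0, fun l hl => absurd hl (Nat.not_lt_zero _)⟩
  | succ n ih =>
    obtain ⟨ρ, h, hρ⟩ := ih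
    have hκ : ∀ l : List V, ∃ κ : (List V →₀ M) →+ (List V →₀ M), l ≠ [] →
      (∀ l', Nice gl l' → (∀ a ∈ l', a ∈ l) → ∀ m,
        κ (single l' m) ∈ Sup M (fun l'' => Nice gl l'' ∧ (∀ a ∈ l'', a ∈ l) ∧
          l''.length = l'.length + 1)) ∧
      ∀ l', Nice gl l' → (∀ a ∈ l', a ∈ l) → ∀ m,
        bd (κ (single l' m)) = single l' m - κ (bd1 l' m) := by
      intro l
      by_cases hl : l = []
      · exact ⟨0, fun h => absurd hl h⟩
      · obtain ⟨κ, hκ⟩ := exists_kap (M := M) gl hgl l hl
        exact ⟨κ, fun _ => hκ⟩
    choose κ hκ using hκ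
    let ρ1 : List V → M →+ (List V →₀ M) := fun l =>
      if l.length < n then ρ.comp (Finsupp.singleAddHom l)
      else if l = [] then Finsupp.singleAddHom l else (κ l).comp (ρ.comp (bd1 l))
    let ρ' : (List V →₀ M) →+ (List V →₀ M) := Finsupp.liftAddHom ρ1
    have e1 : ∀ l : List V, l.length < n → ∀ m, ρ' (single l m) = ρ (single l m) := by
      intro l hl m
      simp [ρ', ρ1, hl]
    have e1' : ∀ l : List V, l.length < n + 1 → ∀ m, ρ' (bd1 l m) = ρ (bd1 l m) := by
      intro l hl m
      have h1 := bd1_mem l m
      rw [← Finsupp.sum_single (bd1 l m), Finsupp.sum, map_sum, map_sum]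
      refine Finset.sum_congr rfl fun l' hl' => ?_
      have h2 := h1 l' (Finsupp.mem_support_iff.mp hl')
      exact e1 l' (by omega) _
    have e2 : ∀ l : List V, l.length = n → l ≠ [] → ∀ m, ρ' (single l m) = κ l (ρ (bd1 l m)) := by
      intro l hl h0 m
      simp [ρ', ρ1, hl, h0]
    have e0 : ∀ m, n = 0 → ρ' (single ([] : List V) m) = single [] m := by
      intro m hn
      simp [ρ', ρ1, hn]
    -- properties of rho'
    have hbdρ : ∀ (P : List V → Prop) (l : List V), (∀ l', P l' → l'.length < n) →
        ∀ c ∈ Sup M P, bd (ρ c) = ρ (bd c) := by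
      intro P l hP c hc
      rw [← Finsupp.sum_single c, Finsupp.sum, map_sum, map_sum, map_sum, map_sum]
      refine Finset.sum_congr rfl fun l' hl' => ?_
      rw [(hρ l' (hP l' (hc l' (Finsupp.mem_support_iff.mp hl'))) _).1, bd_single]
    have pρ : ∀ l : List V, l.length < n + 1 → ∀ m,
        bd (ρ' (single l m)) = ρ' (bd1 l m) ∧
        ρ' (single l m) ∈ Sup M (fun l' => Nice gl l' ∧ (∀ a ∈ l', a ∈ l) ∧
          l'.length = l.length) := by
      intro l hl m
      by_cases hl2 : l.length < n
      · rw [e1 l hl2, e1' l hl]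
        exact ⟨(hρ l hl2 m).1, (hρ l hl2 m).2.1⟩
      · have hln : l.length = n := by omega
        by_cases h0 : l = []
        · subst h0
          have hn0 : n = 0 := by simpa using hln.symm
          rw [e0 m hn0, bd_single, bd1_nil, map_zero]
          refine ⟨rfl, single_mem_Sup ⟨⟨[], [], rfl, List.nil_sublist _, by simp⟩, by simp, rfl⟩ m⟩
        · rw [e2 l hln h0, e1' l hl]
          have hz : ρ (bd1 l m) ∈ Sup M (fun l' => Nice gl l' ∧ (∀ a ∈ l', a ∈ l) ∧
              l'.length + 1 = l.length) := by
            refine map_mem_Sup _ (fun l' hl' m' => ?_) (bd1_mem l m)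
            refine Sup_mono (fun l'' h'' => ⟨h''.1, fun a ha => hl'.1 a (h''.2.1 a ha), ?_⟩)
              (hρ l' (by omega) m').2.1
            rw [h''.2.2]; exact hl'.2
          constructor
          · rw [bd_ind (P := fun l' => Nice gl l' ∧ (∀ a ∈ l', a ∈ l) ∧ l'.length + 1 = l.length)
              (κ l) (fun l' hl' m' => (hκ l h0).2 l' hl'.1 hl'.2.1 m') hz,
              hbdρ (fun l' => (∀ a ∈ l', a ∈ l) ∧ l'.length + 1 = l.length) l
                (fun l' hl' => by omega) _ (bd1_mem l m), ← bd_single, bd_bd, map_zero, map_zero,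
              sub_zero]
          · refine map_mem_Sup _ (fun l' hl' m' => ?_) hz
            refine Sup_mono (fun l'' h'' => ⟨h''.1, h''.2.1, ?_⟩)
              ((hκ l h0).1 l' hl'.1 hl'.2.1 m')
            rw [h''.2.2]; exact hl'.2.2
    -- the homotopy
    let h1 : List V → M →+ (List V →₀ M) := fun l =>
      if l.length < n then h.comp (Finsupp.singleAddHom l)
      else match l with
        | [] => 0
        | v :: l1 => (cns v).comp (Finsupp.singleAddHom (v :: l1) -
            ρ'.comp (Finsupp.singleAddHom (v :: l1)) - h.comp (bd1 (v :: l1)))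
    let h' : (List V →₀ M) →+ (List V →₀ M) := Finsupp.liftAddHom h1
    have f1 : ∀ l : List V, l.length < n → ∀ m, h' (single l m) = h (single l m) := by
      intro l hl m
      simp [h', h1, hl]
    have f1' : ∀ l : List V, l.length < n + 1 → ∀ m, h' (bd1 l m) = h (bd1 l m) := by
      intro l hl m
      have h1 := bd1_mem l m
      rw [← Finsupp.sum_single (bd1 l m), Finsupp.sum, map_sum, map_sum]
      refine Finset.sum_congr rfl fun l' hl' => ?_
      have h2 := h1 l' (Finsupp.mem_support_iff.mp hl')
      exact f1 l' (by omega) _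
    have f2 : ∀ (v : V) (l1 : List V), (v :: l1).length = n → ∀ m,
        h' (single (v :: l1) m) = cns v (single (v :: l1) m - ρ' (single (v :: l1) m) -
          h (bd1 (v :: l1) m)) := by
      intro v l1 hl m
      have : ¬ ((v :: l1).length < n) := by omega
      simp only [h', h1, Finsupp.liftAddHom_apply_single, this, if_false]
      simp
    have f0 : ∀ m, n = 0 → h' (single ([] : List V) m) = 0 := by
      intro m hn
      simp [h', h1, hn]
    refine ⟨ρ', h', fun l hl m => ⟨(pρ l hl m).1, (pρ l hl m).2, ?_⟩⟩
    by_cases hl2 : l.length < n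
    · rw [f1 l hl2, f1' l hl, e1 l hl2]
      exact ⟨(hρ l hl2 m).2.2.1, (hρ l hl2 m).2.2.2⟩
    · have hln : l.length = n := by omega
      rcases l with _ | ⟨v, l1⟩
      · have hn0 : n = 0 := by simpa using hln.symm
        rw [f0 m hn0, e0 m hn0, bd1_nil, map_zero, map_zero, add_zero, sub_self]
        exact ⟨rfl, AddSubgroup.zero_mem _⟩
      · rw [f2 v l1 hln, f1' _ hl]
        set l := v :: l1 with hldef
        have hhb : h (bd1 l m) ∈ Sup M (fun l' => (∀ a ∈ l', a ∈ l) ∧
            l'.length = l.length) := by
          refine map_mem_Sup _ (fun l' hl' m' => ?_) (bd1_mem l m)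
          refine Sup_mono (fun l'' h'' => ⟨fun a ha => hl'.1 a (h''.1 a ha), ?_⟩)
            (hρ l' (by omega) m').2.2.2
          rw [h''.2]; exact hl'.2
        have hbh : bd (h (bd1 l m)) = bd1 l m - ρ (bd1 l m) := by
          have key : ∀ c ∈ Sup M (fun l' => (∀ a ∈ l', a ∈ l) ∧ l'.length + 1 = l.length),
              bd (h c) + h (bd c) = c - ρ c := by
            intro c hc
            rw [← Finsupp.sum_single c, Finsupp.sum]
            simp only [map_sum]
            rw [← Finset.sum_add_distrib, ← Finset.sum_sub_distrib]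
            refine Finset.sum_congr rfl fun l' hl' => ?_
            have h2 := hc l' (Finsupp.mem_support_iff.mp hl')
            rw [bd_single]
            exact (hρ l' (by omega) _).2.2.1
          have h3 := key _ (bd1_mem l m)
          rw [← bd_single, bd_bd, map_zero, add_zero, bd_single] at h3
          exact h3
        constructor
        · have e : bd (single l m - ρ' (single l m) - h (bd1 l m)) = 0 := by
            rw [map_sub, map_sub, (pρ l hl m).1, hbh, e1' l hl, bd_single, sub_self]
          rw [bd_cns, e, map_zero, sub_zero]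
          abel
        · have h5 : single l m - ρ' (single l m) - h (bd1 l m) ∈
              Sup M (fun l' => (∀ a ∈ l', a ∈ l) ∧ l'.length = l.length) := by
            refine AddSubgroup.sub_mem _ (AddSubgroup.sub_mem _ (single_mem_Sup
              ⟨fun a ha => ha, rfl⟩ m) ?_) hhb
            exact Sup_mono (fun l' hl' => ⟨hl'.2.1, hl'.2.2⟩) (pρ l hl m).2
          refine cns_mem_Sup ?_ h5
          intro l' hl'
          refine ⟨fun a ha => ?_, ?_⟩
          · rcases List.mem_cons.mp ha with h5 | h5
            · rw [h5]; exact List.mem_cons_self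
            · exact hl'.1 a h5
          · rw [List.length_cons, hl'.2]

end Pool.Agent.TOR.H58
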