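import Pool.Agent.Helper58_TOR.Nic

/-! Truncated acyclicity; relative step; elimination of cores. -/

set_option autoImplicit false

namespace Pool.Agent.TOR.H58

open Finsupp

variable {V M : Type*} [AddCommGroup M]

/-- cycles of lists of length less than r are boundaries: (r - 2)-acyclic -/
def AcT (M : Type*) [AddCommGroup M] (r : ℕ) (K : Set V → Prop) : Prop :=
  ∀ c ∈ Sup M (fun l => KL K l ∧ l.length < r), bd c = 0 → ∃ b ∈ Sup M (KL K), bd b = c

theorem Acyc.acT {K : Set V → Prop} (h : Acyc M K) (r : ℕ) : AcT M r K := fun c hc h0 =>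
  h c (Sup_mono (fun _ h => h.1) hc) h0

theorem AcT.mono {K : Set V → Prop} {r r' : ℕ} (h : AcT M r K) (hr : r' ≤ r) : AcT M r' K :=
  fun c hc h0 => h c (Sup_mono (fun _ h => ⟨h.1, lt_of_lt_of_le h.2 hr⟩) hc) h0

theorem eq_zero_of_disj {P Q : List V → Prop} {c : List V →₀ M} (h1 : c ∈ Sup M P)
    (h2 : c ∈ Sup M Q) (h : ∀ l, P l → Q l → False) : c = 0 := by
  ext l
  by_contra h3
  exact h l (h1 l h3) (h2 l h3)

theorem filter_mem {P : List V → Prop} {c : List V →₀ M} (hc : c ∈ Sup M P) (Q : List V → Prop) :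
    ∃ d ∈ Sup M (fun l => P l ∧ Q l), c - d ∈ Sup M (fun l => P l ∧ ¬ Q l) := by
  classical
  refine ⟨c.filter Q, ?_, ?_⟩
  · intro l hl
    by_cases h : Q l
    · rw [Finsupp.filter_apply_pos _ _ h] at hl
      exact ⟨hc l hl, h⟩
    · exact absurd (Finsupp.filter_apply_neg _ _ h) hl
  · intro l hl
    rw [Finsupp.sub_apply] at hl
    by_cases h : Q l
    · rw [Finsupp.filter_apply_pos _ _ h, sub_self] at hl
      exact absurd rfl hl
    · rw [Finsupp.filter_apply_neg _ _ h, sub_zero] at hl
      exact ⟨hc l hl, h⟩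

/-- truncation -/
theorem trunc {P : List V → Prop} {r : ℕ} {b c : List V →₀ M} (hb : b ∈ Sup M P)
    (hc : c ∈ Sup M (fun l => l.length < r)) (h : bd b = c) :
    ∃ b' ∈ Sup M (fun l => P l ∧ l.length < r + 1), bd b' = c := by
  obtain ⟨d, h1, h2⟩ := filter_mem hb (fun l => l.length < r + 1)
  refine ⟨_, h1, ?_⟩
  have h3 : bd (b - d) ∈
      Sup M (fun l : List V => r ≤ l.length) := by
    refine bd_mem_Sup ?_ h2
    intro l hl l' _ h
    have := hl.2
    omega
  have h4 : bd d ∈ Sup M (fun l : List V => l.length < r) := by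
    refine bd_mem_Sup ?_ h1
    intro l hl l' _ h
    have := hl.2
    omega
  have h5 : bd (b - d) ∈ Sup M (fun l : List V => l.length < r) := by
    rw [map_sub, h]
    exact AddSubgroup.sub_mem _ hc h4
  have h6 := eq_zero_of_disj h3 h5 (fun l h h' => by omega)
  rw [map_sub, h, sub_eq_zero] at h6
  exact h6.symm

/-- put the list g in front -/
noncomputable def pre (g : List V) : (List V →₀ M) →+ (List V →₀ M) :=
  Finsupp.mapDomain.addMonoidHom (g ++ ·)

theorem pre_single (g l : List V) (m : M) : pre g (single l m) = single (g ++ l) m := by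
  simp [pre, Finsupp.mapDomain.addMonoidHom, Finsupp.mapDomain_single]

theorem pre_cons (v : V) (g : List V) (c : List V →₀ M) : pre (v :: g) c = cns v (pre g c) := by
  induction c using Finsupp.induction_linear with
  | zero => simp
  | add f g hf hg => simp only [map_add, hf, hg]
  | single l m => rw [pre_single, pre_single, cns_single, List.cons_append]

theorem pre_nil (c : List V →₀ M) : pre [] c = c := by
  induction c using Finsupp.induction_linear with
  | zero => simp
  | add f g hf hg => simp only [map_add, hf, hg]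
  | single l m => rw [pre_single, List.nil_append]

theorem pre_inj (g : List V) : Function.Injective (pre (M := M) g) := by
  have h : Function.Injective (fun l : List V => g ++ l) := fun a b h => List.append_cancel_left h
  exact Finsupp.mapDomain_injective h

theorem pre_apply (g l : List V) (c : List V →₀ M) : pre g c (g ++ l) = c l := by
  have h : Function.Injective (fun l : List V => g ++ l) := fun a b h => List.append_cancel_left h
  exact Finsupp.mapDomain_apply h c l

theorem pre_notin (g l : List V) (c : List V →₀ M) (h : ∀ t, l ≠ g ++ t) : pre g c l = 0 := by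
  refine Finsupp.mapDomain_of_notMem_range c l ?_
  rintro ⟨t, ht⟩
  exact h t ht.symm

/-- boundary of pre -/
theorem bd_pre (g : List V) (hg : g.Nodup) :
    ∃ fr : (List V →₀ M) →+ (List V →₀ M), (∀ c, bd (pre g c) = fr c + (-1 : ℤ) ^ g.length • pre g (bd c)) ∧
      ∀ t : List V, (∀ a ∈ t, a ∉ g) → ∀ m, fr (single t m) ∈
        Sup M (fun l => (∃ a ∈ g, a ∉ l) ∧ ∀ b ∈ l, b ∈ g ∨ b ∈ t) := by
  induction g with
  | nil =>
    refine ⟨0, fun c => ?_, fun t _ m => AddSubgroup.zero_mem _⟩
    rw [pre_nil, pre_nil]; simp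
  | cons v g ih =>
    obtain ⟨hv, hg'⟩ := List.nodup_cons.mp hg
    obtain ⟨fr, h1, h2⟩ := ih hg'
    refine ⟨pre g - (cns v).comp fr, fun c => ?_, fun t ht m => ?_⟩
    · rw [pre_cons, bd_cns, h1, map_add, map_zsmul, pre_cons, List.length_cons, pow_succ,
        AddMonoidHom.sub_apply, AddMonoidHom.comp_apply]
      simp only [mul_neg, mul_one, neg_smul]
      abel
    · rw [AddMonoidHom.sub_apply, AddMonoidHom.comp_apply, pre_single]
      have k1 : v ∉ g ++ t := by
        intro h
        rcases List.mem_append.mp h with h | h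
        · exact hv h
        · exact ht v h List.mem_cons_self
      have k2 : ∀ b ∈ g ++ t, b ∈ v :: g ∨ b ∈ t := by
        intro b hb
        rcases List.mem_append.mp hb with h | h
        · exact Or.inl (List.mem_cons_of_mem _ h)
        · exact Or.inr h
      refine AddSubgroup.sub_mem _ (single_mem_Sup ⟨⟨v, List.mem_cons_self, k1⟩, k2⟩ m) ?_
      · refine cns_mem_Sup ?_ (h2 t (fun a ha h => ht a ha (List.mem_cons_of_mem _ h)) m)
        rintro l ⟨⟨a, ha, hal⟩, hb⟩
        refine ⟨⟨a, List.mem_cons_of_mem _ ha, fun h => ?_⟩, fun b hb' => ?_⟩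
        · rcases List.mem_cons.mp h with h | h
          · exact hv (h ▸ ha)
          · exact hal h
        · rcases List.mem_cons.mp hb' with h | h
          · exact Or.inl (h ▸ List.mem_cons_self)
          · rcases hb b h with h | h
            · exact Or.inl (List.mem_cons_of_mem _ h)
            · exact Or.inr h

theorem lin_mem {P Q : List V → Prop} (T : (List V →₀ M) →+ (List V →₀ M))
    (hT : ∀ l, P l → ∀ m, T (single l m) ∈ Sup M Q) {c : List V →₀ M} (hc : c ∈ Sup M P) :
    T c ∈ Sup M Q := map_mem_Sup T hT hc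

theorem lin_eq {P : List V → Prop} (S T : (List V →₀ M) →+ (List V →₀ M))
    (hT : ∀ l, P l → ∀ m, S (single l m) = T (single l m)) {c : List V →₀ M} (hc : c ∈ Sup M P) :
    S c = T c := by
  rw [← Finsupp.sum_single c, Finsupp.sum, map_sum, map_sum]
  exact Finset.sum_congr rfl fun l hl => hT l (hc l (Finsupp.mem_support_iff.mp hl)) _

/-- RELATIVE STEP -/
theorem rel_step {K L : Set V → Prop} (hK : ∀ s t, s ⊆ t → K t → K s)
    (hL : ∀ s t, s ⊆ t → L t → L s) (gl : List V) (hgl : gl.Nodup)
    (hγ : ∀ s, K s → ¬ L s → ∀ g ∈ gl, g ∈ s) (J : Set V → Prop)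
    (hJ : ∀ t : Set V, J t ↔ (∀ a ∈ t, a ∉ gl) ∧ K ({a | a ∈ gl} ∪ t) ∧ ¬ L ({a | a ∈ gl} ∪ t))
    (hJd : ∀ s t, s ⊆ t → J t → J s) (r n : ℕ) (hn : n ≤ r + gl.length) (hac : AcT M r J)
    {c : List V →₀ M} (hc : c ∈ Sup M (fun l => KL K l ∧ l.length < n))
    (hbc : bd c ∈ Sup M (KL L)) :
    ∃ x ∈ Sup M (fun l => KL K l ∧ l.length < n + 1), c - bd x ∈ Sup M (KL L) := by
  classical
  have hset : ∀ t : List V, {a | a ∈ gl ++ t} = {a | a ∈ gl} ∪ {a | a ∈ t} := by
    intro t
    ext a
    simp [List.mem_append]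
  obtain ⟨ρ, h, hρ⟩ := exists_rho (M := M) gl hgl n
  have hbcn : bd c ∈ Sup M (fun l => KL L l ∧ l.length < n) := by
    intro l hl
    refine ⟨hbc l hl, ?_⟩
    have h1 : bd c ∈ Sup M (fun l : List V => l.length < n) :=
      bd_mem_Sup (fun l hl l' _ h => by have := hl.2; omega) hc
    exact h1 l hl
  have hρc : ρ c ∈ Sup M (fun l => Nice gl l ∧ KL K l ∧ l.length < n) := by
    refine map_mem_Sup _ (fun l hl m => ?_) hc
    refine Sup_mono (fun l' hl' => ⟨hl'.1, hK _ _ (fun a ha => hl'.2.1 a ha) hl.1, ?_⟩)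
      (hρ l hl.2 m).2.1
    have h1 := hl.2
    have h2 := hl'.2.2
    omega
  have hbρ : bd (ρ c) = ρ (bd c) := by
    have := lin_eq (P := fun l : List V => KL K l ∧ l.length < n) (bd.comp ρ) (ρ.comp bd)
      (fun l hl m => by
        rw [AddMonoidHom.comp_apply, AddMonoidHom.comp_apply, (hρ l hl.2 m).1, bd_single]) hc
    exact this
  have hρb : ρ (bd c) ∈ Sup M (KL L) := by
    refine map_mem_Sup _ (fun l hl m => ?_) hbcn
    exact Sup_mono (fun l' hl' => hL _ _ (fun a ha => hl'.2.1 a ha) hl.1) (hρ l hl.2 m).2.1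
  have hhb : h (bd c) ∈ Sup M (KL L) := by
    refine map_mem_Sup _ (fun l hl m => ?_) hbcn
    exact Sup_mono (fun l' hl' => hL _ _ (fun a ha => hl'.1 a ha) hl.1) (hρ l hl.2 m).2.2.2
  have hhc : h c ∈ Sup M (fun l => KL K l ∧ l.length < n + 1) := by
    refine map_mem_Sup _ (fun l hl m => ?_) hc
    refine Sup_mono (fun l' hl' => ⟨hK _ _ (fun a ha => hl'.1 a ha) hl.1, ?_⟩)
      (hρ l hl.2 m).2.2.2
    have h1 := hl.2
    have h2 := hl'.2
    omega
  have hhom : bd (h c) + h (bd c) = c - ρ c := by
    have := lin_eq (P := fun l : List V => KL K l ∧ l.length < n) (bd.comp h + h.comp bd)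
      (AddMonoidHom.id _ - ρ)
      (fun l hl m => by
        rw [AddMonoidHom.add_apply, AddMonoidHom.comp_apply, AddMonoidHom.comp_apply,
          AddMonoidHom.sub_apply, AddMonoidHom.id_apply, bd_single]
        exact (hρ l hl.2 m).2.2.1) hc
    exact this
  -- the part of rho c with full front
  have hinj : Function.Injective (fun l : List V => gl ++ l) := fun a b h =>
    List.append_cancel_left h
  set y : List V →₀ M := (Finsupp.comapDomain (gl ++ ·) (ρ c) hinj.injOn).filter (KL J) with hy
  have hyJ : ∀ t, KL J t → y t = ρ c (gl ++ t) := by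
    intro t ht
    rw [hy, Finsupp.filter_apply_pos _ _ ht, Finsupp.comapDomain_apply]
  have hyn : ∀ t, ¬ KL J t → y t = 0 := by
    intro t ht
    rw [hy, Finsupp.filter_apply_neg _ _ ht]
  have hyS : y ∈ Sup M (fun t => KL J t ∧ t.length + gl.length < n) := by
    intro t ht
    by_cases h1 : KL J t
    · rw [hyJ t h1] at ht
      refine ⟨h1, ?_⟩
      have := (hρc _ ht).2.2
      rw [List.length_append] at this
      omega
    · exact absurd (hyn t h1) ht
  have hd1 : ρ c - pre gl y ∈ Sup M (KL L) := by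
    intro l hl
    rw [Finsupp.sub_apply] at hl
    by_cases hex : ∃ t, l = gl ++ t
    · obtain ⟨t, rfl⟩ := hex
      rw [pre_apply] at hl
      by_cases hJt : KL J t
      · rw [hyJ t hJt, sub_self] at hl
        exact absurd rfl hl
      · rw [hyn t hJt, sub_zero] at hl
        obtain ⟨h1, h2, h3⟩ := hρc _ hl
        by_contra h4
        refine hJt ((hJ _).mpr ⟨?_, ?_, ?_⟩)
        · obtain ⟨g', t', h5, h6, h7⟩ := h1
          have h8 : ∀ g ∈ gl, g ∈ g' := by
            intro g hg
            have h9 : g ∈ g' ++ t' := by rw [← h5]; exact List.mem_append_left _ hg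
            exact (List.mem_append.mp h9).resolve_right fun h => h7 g h hg
          have h10 : gl.length ≤ g'.length := (hgl.subperm h8).length_le
          have h11 : g' = gl := h6.eq_of_length_le h10
          rw [h11] at h5
          have h12 : t = t' := List.append_cancel_left h5
          rw [h12]; exact h7
        · have := h2
          unfold KL at this
          rwa [hset] at this
        · unfold KL at h4
          rwa [hset] at h4
    · push Not at hex
      rw [pre_notin gl l y hex, sub_zero] at hl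
      obtain ⟨h1, h2, h3⟩ := hρc _ hl
      by_contra h4
      obtain ⟨g', t', h5, h6, h7⟩ := h1
      have h8 : ∀ g ∈ gl, g ∈ g' := by
        intro g hg
        have h9 : g ∈ g' ++ t' := by rw [← h5]; exact hγ _ h2 h4 g hg
        exact (List.mem_append.mp h9).resolve_right fun h => h7 g h hg
      have h10 : gl.length ≤ g'.length := (hgl.subperm h8).length_le
      have h11 : g' = gl := h6.eq_of_length_le h10
      rw [h11] at h5
      exact hex t' h5
  obtain ⟨fr, hfr1, hfr2⟩ := bd_pre (M := M) gl hgl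
  have hfr : ∀ z ∈ Sup M (KL J), fr z ∈ Sup M (KL L) := by
    intro z hz
    refine map_mem_Sup _ (fun t ht m => ?_) hz
    obtain ⟨h1, h2, h3⟩ := (hJ _).mp ht
    refine Sup_mono ?_ (hfr2 t h1 m)
    rintro l ⟨⟨a, ha, hal⟩, hb⟩
    have h4 : KL K l := hK _ _ (fun b hb' => hb b hb') h2
    by_contra h5
    exact hal (hγ _ h4 h5 a ha)
  have hyJ' : y ∈ Sup M (KL J) := Sup_mono (fun _ h => h.1) hyS
  have hby : bd y = 0 := by
    have h1 : bd (pre gl y) ∈ Sup M (KL L) := by
      have h2 : pre gl y = ρ c - (ρ c - pre gl y) := by abel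
      rw [h2, map_sub, hbρ]
      exact AddSubgroup.sub_mem _ hρb (bd_mem_Sup (fun l hl l' h _ => hL _ _ h hl) hd1)
    have h2 : (-1 : ℤ) ^ gl.length • pre gl (bd y) ∈ Sup M (KL L) := by
      have h3 : (-1 : ℤ) ^ gl.length • pre gl (bd y) = bd (pre gl y) - fr y := by
        rw [hfr1]; abel
      rw [h3]
      exact AddSubgroup.sub_mem _ h1 (hfr y hyJ')
    have h3 : pre gl (bd y) ∈ Sup M (KL L) := by
      rcases neg_one_pow_eq_or ℤ gl.length with h4 | h4
      · rw [h4, one_smul] at h2; exact h2
      · rw [h4, neg_smul, one_smul] at h2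
        have := AddSubgroup.neg_mem _ h2
        rwa [neg_neg] at this
    have h4 : pre gl (bd y) = 0 := by
      ext l
      by_contra h5
      by_cases hex : ∃ t, l = gl ++ t
      · obtain ⟨t, rfl⟩ := hex
        have h6 : ¬ bd y t = 0 := by rw [pre_apply] at h5; exact h5
        have h7 : bd y ∈ Sup M (KL J) := bd_mem_Sup (fun l hl l' h _ => hJd _ _ h hl) hyJ'
        have h8 := (hJ _).mp (h7 t h6)
        have h9 := h3 _ h5
        unfold KL at h9
        rw [hset] at h9
        exact h8.2.2 h9
      · push Not at hex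
        exact h5 (pre_notin gl l _ hex)
    exact (map_eq_zero_iff _ (pre_inj gl)).mp h4
  obtain ⟨z, hz, hzy⟩ : ∃ z ∈ Sup M (fun t => KL J t ∧ t.length + gl.length < n + 1),
      bd z = y := by
    by_cases hng : n ≤ gl.length
    · refine ⟨0, AddSubgroup.zero_mem _, ?_⟩
      rw [map_zero]
      symm
      ext t
      by_contra h5
      have := (hyS t h5).2
      omega
    · obtain ⟨z, hz, hzy⟩ := hac y (Sup_mono (fun t h => ⟨h.1, by have := h.2; omega⟩) hyS) hby
      obtain ⟨z', hz', hzy'⟩ := trunc (r := n - gl.length) hz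
        (Sup_mono (fun t h => by have := h.2; omega) hyS) hzy
      exact ⟨z', Sup_mono (fun t h => ⟨h.1, by have := h.2; omega⟩) hz', hzy'⟩
  have hzJ : z ∈ Sup M (KL J) := Sup_mono (fun _ h => h.1) hz
  refine ⟨h c + (-1 : ℤ) ^ gl.length • pre gl z, ?_, ?_⟩
  · refine AddSubgroup.add_mem _ hhc (AddSubgroup.zsmul_mem _ ?_ _)
    refine map_mem_Sup _ (fun t ht m => ?_) hz
    rw [pre_single]
    refine single_mem_Sup ⟨?_, ?_⟩ m
    · unfold KL
      rw [hset]
      exact ((hJ _).mp ht.1).2.1
    · rw [List.length_append]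
      have := ht.2
      omega
  · have h1 : c - bd (h c + (-1 : ℤ) ^ gl.length • pre gl z) =
        h (bd c) + (ρ c - pre gl y) - (-1 : ℤ) ^ gl.length • fr z := by
      rw [map_add, map_zsmul, hfr1, hzy, smul_add, smul_smul, ← pow_add, ← two_mul, pow_mul]
      simp only [even_two, Even.neg_pow, one_pow, one_smul]
      have h2 : h (bd c) = c - ρ c - bd (h c) := by rw [← hhom]; abel
      rw [h2]
      abel
    rw [h1]
    exact AddSubgroup.sub_mem _ (AddSubgroup.add_mem _ hhb hd1)
      (AddSubgroup.zsmul_mem _ (hfr z hzJ) _)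

end Pool.Agent.TOR.H58
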